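import Pool.Agent.W603.GY.Kod2

/-!
The logarithmic Gauss map: a derivation for which the logarithmic derivatives of units are constant.
-/

set_option autoImplicit false

open FF Pool.Agent.W602.GT

namespace Pool.Agent.W603.GY

variable {k K : Type} [Field k] [Field K] [Algebra k K]

theorem gsum_apply {α : Type} (s : Finset α) (E : α → Derivation k K K) (z : K) :
    (∑ q ∈ s, E q) z = ∑ q ∈ s, E q z := by
  classical
  induction s using Finset.induction_on with
  | empty => rw [Finset.sum_empty, Finset.sum_empty]; rfl
  | insert a s ha ih => rw [Finset.sum_insert ha, Finset.sum_insert ha, Derivation.add_apply, ih]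

/-- the logarithmic derivatives of a unit for two commuting derivations -/
theorem ld_comm {D E : Derivation k K K} (h : ∀ z, D (E z) = E (D z)) {x : K} (hx : x ≠ 0) :
    D (E x / x) = E (D x / x) := by
  rw [Derivation.leibniz_div, Derivation.leibniz_div, h]
  congr 1
  simp only [smul_eq_mul]
  ring

/-- **The second fundamental form.** The derivations annihilating the logarithmic Gauss map contain
one for which the logarithmic derivatives of the units are constant. -/
theorem second_order [CharZero k] {h p : ℕ} {t : Fin h → K} {u : Fin p → K}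
    (hbasis : IsTranscendenceBasis k (Sum.elim t u)) (hu : ∀ q, u q ≠ 0) {Su : Set K}
    (hSu : ∀ x ∈ Su, x ≠ 0) {D : Fin p → Derivation k K K} (hDt : ∀ q i, D q (t i) = 0)
    (hDu : ∀ q q', D q (u q') = if q = q' then u q' else 0)
    (hne : ∃ E : Derivation k K K, E ≠ 0 ∧ (∀ i, E (t i) = 0) ∧
      ∀ q, ∀ x ∈ Su, E (D q x / x) = 0) :
    ∃ E : Derivation k K K, E ≠ 0 ∧ (∀ i, E (t i) = 0) ∧ ∀ x ∈ Su, E (E x / x) = 0 := by
  classical
  -- expansion in the dual basis
  have hext : ∀ {E E' : Derivation k K K}, (∀ i, E (t i) = E' (t i)) →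
      (∀ q, E (u q) = E' (u q)) → E = E' := by
    intro E E' h1 h2
    apply der_ext (Sum.elim t u) hbasis
    rintro (i | q)
    · exact h1 i
    · exact h2 q
  have hsumu : ∀ (c : Fin p → K) (q' : Fin p), (∑ q, c q • D q) (u q') = c q' * u q' := by
    intro c q'
    rw [gsum_apply]
    simp only [Derivation.coe_smul, Pi.smul_apply, hDu, smul_eq_mul]
    rw [Finset.sum_eq_single q']
    · rw [if_pos rfl]
    · intro q _ hq
      rw [if_neg hq, mul_zero]
    · intro h
      exact absurd (Finset.mem_univ _) h
  have hsumt : ∀ (c : Fin p → K) i, (∑ q, c q • D q) (t i) = 0 := by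
    intro c i
    rw [gsum_apply]
    simp only [Derivation.coe_smul, Pi.smul_apply, hDt, smul_zero, Finset.sum_const_zero]
  have hexp : ∀ E : Derivation k K K, (∀ i, E (t i) = 0) → ∀ z, E z =
      ∑ q, (E (u q) / u q) * D q z := by
    intro E hE z
    have h1 : E = ∑ q, (E (u q) / u q) • D q := by
      apply hext
      · intro i
        rw [hE, hsumt]
      · intro q
        rw [hsumu, div_mul_cancel₀ _ (hu q)]
    conv_lhs => rw [h1]
    rw [gsum_apply]
    rfl
  -- the dual basis commutes
  have hcomm : ∀ s r z, D s (D r z) = D r (D s z) := by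
    intro s r z
    have h1 : ⁅D s, D r⁆ = 0 := by
      apply hext
      · intro i
        rw [Derivation.commutator_apply, hDt, hDt, map_zero, map_zero, sub_self]
        rfl
      · intro q
        rw [Derivation.commutator_apply, hDu, hDu]
        by_cases hr : r = q
        · by_cases hs : s = q
          · rw [if_pos hr, if_pos hs, hDu, hDu, if_pos hr, if_pos hs, sub_self]
            rfl
          · rw [if_pos hr, if_neg hs, hDu, if_neg hs, map_zero, sub_self]
            rfl
        · by_cases hs : s = q
          · rw [if_neg hr, if_pos hs, hDu, if_neg hr, map_zero, sub_self]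
            rfl
          · rw [if_neg hr, if_neg hs, map_zero, map_zero, sub_self]
            rfl
    have h2 := congrArg (fun E : Derivation k K K => E z) h1
    simp only [Derivation.commutator_apply] at h2
    exact sub_eq_zero.1 h2
  have hsym : ∀ s r x, x ∈ Su → D s (D r x / x) = D r (D s x / x) := fun s r x hx =>
    ld_comm (hcomm s r) (hSu x hx)
  -- a derivation of minimal support
  let supp : Derivation k K K → ℕ := fun E => (Finset.univ.filter fun q => E (u q) ≠ 0).card
  obtain ⟨E0, ⟨hE00, hE0t, hE0a⟩, hmin⟩ := WellFounded.has_min (measure supp).wf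
    {E : Derivation k K K | E ≠ 0 ∧ (∀ i, E (t i) = 0) ∧ ∀ q, ∀ x ∈ Su, E (D q x / x) = 0} hne
  obtain ⟨q0, hq0⟩ : ∃ q0, E0 (u q0) ≠ 0 := by
    by_contra hcon
    push Not at hcon
    exact hE00 (hext (fun i => by rw [hE0t]; rfl) fun q => by rw [hcon]; rfl)
  let E : Derivation k K K := (u q0 / E0 (u q0)) • E0
  have hsc : u q0 / E0 (u q0) ≠ 0 := div_ne_zero (hu _) hq0
  have hEz : ∀ z, E z = (u q0 / E0 (u q0)) * E0 z := fun z => rfl
  have hE0' : E ≠ 0 := smul_ne_zero hsc hE00
  have hEt : ∀ i, E (t i) = 0 := fun i => by rw [hEz, hE0t, mul_zero]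
  have hEa : ∀ q, ∀ x ∈ Su, E (D q x / x) = 0 := fun q x hx => by rw [hEz, hE0a q x hx, mul_zero]
  let f : Fin p → K := fun q => E (u q) / u q
  have hf : ∀ q, f q = E (u q) / u q := fun q => rfl
  have hf0 : f q0 = 1 := by
    rw [hf, hEz, div_mul_cancel₀ _ hq0, div_self (hu _)]
  have hEexp : ∀ z, E z = ∑ q, f q * D q z := hexp E hEt
  -- the derivative of the coefficients
  have hkey : ∀ q, E (f q) = 0 := by
    by_contra hcon
    push Not at hcon
    obtain ⟨q1, hq1⟩ := hcon
    let D' : Derivation k K K := ∑ q, E (f q) • D q
    have hD'z : ∀ z, D' z = ∑ q, E (f q) * D q z := by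
      intro z
      change (∑ q, E (f q) • D q) z = _
      rw [gsum_apply]
      rfl
    refine hmin D' ⟨fun h0 => ?_, hsumt _, fun q x hx => ?_⟩ ?_
    · have h1 := hsumu (fun q => E (f q)) q1
      change D' (u q1) = _ at h1
      rw [h0] at h1
      exact mul_ne_zero hq1 (hu q1) h1.symm
    · let A : Fin p → Fin p → K := fun s r => D s (D r x / x)
      have hA : ∀ s r, A s r = A r s := fun s r => hsym s r x hx
      have h1 : ∀ r, ∑ s, f s * A s r = 0 := by
        intro r
        rw [← hEexp]
        exact hEa r x hx
      have h2 : ∀ s r q, D s (A r q) = D q (A r s) := by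
        intro s r q
        rw [hA r q, hA r s]
        change D s (D q (D r x / x)) = D q (D s (D r x / x))
        exact hcomm _ _ _
      have h3 : ∀ s, ∑ r, f r * D q (A r s) = -∑ r, D q (f r) * A r s := by
        intro s
        have h4 := congrArg (D q) (h1 s)
        rw [map_zero, map_sum] at h4
        simp only [Derivation.leibniz, smul_eq_mul, Finset.sum_add_distrib] at h4
        rw [eq_neg_iff_add_eq_zero, ← h4]
        congr 1
        refine Finset.sum_congr rfl fun r _ => ?_
        ring
      rw [hD'z]
      change ∑ s, E (f s) * A s q = 0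
      have h5 : ∑ s, E (f s) * A s q = -∑ s, f s * E (A s q) := by
        have h4 := congrArg E (h1 q)
        rw [map_zero, map_sum] at h4
        simp only [Derivation.leibniz, smul_eq_mul, Finset.sum_add_distrib] at h4
        rw [eq_neg_iff_add_eq_zero, ← h4, add_comm]
        congr 1
        refine Finset.sum_congr rfl fun r _ => ?_
        ring
      rw [h5, neg_eq_zero]
      have h6 : ∀ s, E (A s q) = -∑ r, D q (f r) * A r s := by
        intro s
        rw [hEexp, ← h3]
        refine Finset.sum_congr rfl fun r _ => ?_
        rw [h2 r s q, hA s r]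
      simp only [h6, mul_neg, Finset.sum_neg_distrib, neg_eq_zero, Finset.mul_sum]
      rw [Finset.sum_comm]
      refine Finset.sum_eq_zero fun r _ => ?_
      have h7 : ∀ s, f s * (D q (f r) * A r s) = D q (f r) * (f s * A s r) := by
        intro s
        rw [hA r s]
        ring
      simp only [h7]
      rw [← Finset.mul_sum, h1, mul_zero]
    · change supp D' < supp E0
      apply Finset.card_lt_card
      rw [Finset.ssubset_iff_of_subset]
      · refine ⟨q0, ?_, ?_⟩
        · rw [Finset.mem_filter]
          exact ⟨Finset.mem_univ _, hq0⟩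
        · rw [Finset.mem_filter]
          rintro ⟨-, h1⟩
          apply h1
          have h2 := hsumu (fun q => E (f q)) q0
          change D' (u q0) = _ at h2
          rw [h2, hf0, Derivation.map_one_eq_zero, zero_mul]
      · intro q hq
        rw [Finset.mem_filter] at hq ⊢
        refine ⟨Finset.mem_univ _, fun h1 => hq.2 ?_⟩
        have h2 := hsumu (fun q => E (f q)) q
        change D' (u q) = _ at h2
        have h3 : f q = 0 := by
          change E (u q) / u q = 0
          rw [hEz, h1, mul_zero, zero_div]
        rw [h2, h3, map_zero, zero_mul]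
  refine ⟨E, hE0', hEt, fun x hx => ?_⟩
  have h1 : E x / x = ∑ q, f q * (D q x / x) := by
    rw [hEexp, Finset.sum_div]
    refine Finset.sum_congr rfl fun q _ => ?_
    rw [mul_div_assoc]
  rw [h1, map_sum]
  refine Finset.sum_eq_zero fun q _ => ?_
  rw [Derivation.leibniz, hkey, hEa q x hx, smul_zero, smul_zero, add_zero]

end Pool.Agent.W603.GY
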