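import Pool.Agent.W603.GY.Maps
import Pool.Agent.W603.GY.Gauss

/-!
Punctured lines through the image of the generic point of a variety with a generically finite
morphism to a quasi-projective variety given by sums of few high powers of linear forms.
-/

set_option autoImplicit false

open FF IntermediateField Pool.Agent.W603.LV Pool.Agent.W603.GR Pool.Agent.W603.GW
  Pool.Agent.W602.GT Pool.Agent.W603.GX

namespace Pool.Agent.W603.GY

variable {k : Type} [Field k] {n : ℕ} {ι κ : Type}

/-- a punctured line through `y` in `X` -/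
def PunctX {K : Type} [Field K] [Algebra k K] (F : ι → MvPolynomial (Fin (n + 1)) k)
    (Q : κ → MvPolynomial (Fin (n + 1)) k) (y : Fin (n + 1) → K) : Prop :=
  ∃ (v : Fin (n + 1) → K) (T : Set κ), (∃ i j, y i * v j - y j * v i ≠ 0) ∧
    (∀ (c c' : K) (i : ι), val (fun l => c * y l + c' * v l) (F i) = 0) ∧
    (∀ (c c' : K) (j : κ), j ∈ T → val (fun l => c * y l + c' * v l) (Q j) =
      val y (Q j) * (c + c') ^ (Q j).totalDegree) ∧
    ∀ (c c' : K) (j : κ), j ∉ T → val (fun l => c * y l + c' * v l) (Q j) =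
      val y (Q j) * c ^ (Q j).totalDegree

/-- the linear conditions -/
def LinC {K : Type} [Field K] [Algebra k K] (Pr : Set ((Fin (n + 1) → k) × (Fin (n + 1) → k)))
    (y e : Fin (n + 1) → K) : Prop :=
  (∀ L : Fin (n + 1) → k, lin L y = 0 → lin L e = 0) ∧
    ∀ p ∈ Pr, lin p.1 e = lin p.1 y / lin p.2 y * lin p.2 e

theorem LinC.comb {K : Type} [Field K] [Algebra k K]
    {Pr : Set ((Fin (n + 1) → k) × (Fin (n + 1) → k))} {y e e' : Fin (n + 1) → K}
    (h : LinC Pr y e) (h' : LinC Pr y e') (c c' : K) :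
    LinC Pr y (fun l => c * e l + c' * e' l) := by
  refine ⟨fun L hL => ?_, fun p hp => ?_⟩
  · rw [lin_add_smul, h.1 L hL, h'.1 L hL, mul_zero, mul_zero, add_zero]
  · rw [lin_add_smul, lin_add_smul, h.2 p hp, h'.2 p hp]
    ring

theorem linC_self {K : Type} [Field K] [Algebra k K]
    {Pr : Set ((Fin (n + 1) → k) × (Fin (n + 1) → k))} {y : Fin (n + 1) → K}
    (hne : ∀ p ∈ Pr, lin p.1 y ≠ 0 ∧ lin p.2 y ≠ 0) : LinC Pr y y :=
  ⟨fun _ hL => hL, fun p hp => by
    have := (hne p hp).2
    field_simp⟩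

theorem LinC.inV {K : Type} [Field K] [Algebra k K]
    {Pr : Set ((Fin (n + 1) → k) × (Fin (n + 1) → k))} {y e : Fin (n + 1) → K}
    (h : LinC Pr y e) : InV Pr y e := ⟨h.1, fun p hp => h.2 p hp⟩

/-- **Eigenvectors.** -/
theorem eig [CharZero k] {K : Type} [Field K] [Algebra k K] {D : Derivation k K K}
    {y : Fin (n + 1) → K} {lq : κ → Fin (n + 1) → k} {ls : Fin (n + 1) → k} (hls : lin ls y ≠ 0)
    (hlq : ∀ j, lin (lq j) y ≠ 0) {m : κ → K}
    (hm : ∀ j, D (lin (lq j) y / lin ls y) = m j * (lin (lq j) y / lin ls y))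
    (hDm : ∀ j, D (m j) = 0) {s : Finset K} (hs : ∀ μ ∈ s, D μ = 0) :
    ∃ e : Fin (n + 1) → K, LinC (PrC (consts D) y) y e ∧
      ∀ j, lin (lq j) e = lin (lq j) y * ∏ μ ∈ s, (m j - μ) := by
  classical
  induction s using Finset.induction_on with
  | empty =>
    refine ⟨y, linC_self fun p hp => ⟨hp.1, hp.2.1⟩, fun j => ?_⟩
    rw [Finset.prod_empty, mul_one]
  | insert a s ha ih =>
    obtain ⟨e, he, heq⟩ := ih fun μ hμ => hs μ (Finset.mem_insert_of_mem hμ)
    have hDa : D a = 0 := hs a (Finset.mem_insert_self _ _)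
    let v : Fin (n + 1) → K := fun i => lin ls y * D (e i / lin ls y)
    have hv : ∀ L : Fin (n + 1) → k, lin L v = lin ls y * D (lin L e / lin ls y) := by
      intro L
      rw [← lin_div, ← lin_der, ← lin_smul]
    have hvC : LinC (PrC (consts D) y) y v := by
      refine ⟨fun L hL => ?_, fun p hp => ?_⟩
      · rw [hv, he.1 L hL, zero_div, map_zero, mul_zero]
      · have h3 : D (lin p.1 y / lin p.2 y) = 0 := hp.2.2
        rw [hv, hv, he.2 p hp, mul_div_assoc, D.leibniz, h3, smul_zero, add_zero, smul_eq_mul]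
        ring
    refine ⟨fun l => 1 * v l + (-a) * e l, hvC.comb he 1 (-a), fun j => ?_⟩
    rw [lin_add_smul, hv, heq, Finset.prod_insert ha]
    have h1 : D (∏ μ ∈ s, (m j - μ)) = 0 := by
      have h2 : ∏ μ ∈ s, (m j - μ) ∈ consts D := by
        refine prod_mem fun μ hμ => ?_
        exact sub_mem (show m j ∈ consts D from hDm j)
          (show μ ∈ consts D from hs μ (Finset.mem_insert_of_mem hμ))
      exact h2
    rw [show lin (lq j) y * (∏ μ ∈ s, (m j - μ)) / lin ls y =
        (∏ μ ∈ s, (m j - μ)) * (lin (lq j) y / lin ls y) by ring, D.leibniz, h1, smul_zero,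
      add_zero, hm, smul_eq_mul]
    field_simp
    ring

/-- the punctured line -/
theorem punct_of_der [IsAlgClosed k] [CharZero k] [Finite κ]
    {F : ι → MvPolynomial (Fin (n + 1)) k} {Q : κ → MvPolynomial (Fin (n + 1)) k} {K : Type}
    [Field K] [Algebra k K] {y : Fin (n + 1) → K} (hy0 : y ≠ 0)
    (halg : Algebra.IsAlgebraic (coords k y) K) {D : Derivation k K K} (hD0 : D ≠ 0)
    {lq : κ → Fin (n + 1) → k} (hG : Good F Q y (PrC (consts D) y) lq) {ls : Fin (n + 1) → k}
    (hls : lin ls y ≠ 0) (hls1 : Nonempty κ → ∃ j1, ls = lq j1)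
    (hm : ∀ j, D (D (lin (lq j) y / lin ls y) / (lin (lq j) y / lin ls y)) = 0) :
    PunctX F Q y := by
  classical
  have hfin := Fintype.ofFinite κ
  have hv1 : ∀ j, lin (lq j) y / lin ls y ≠ 0 := fun j => div_ne_zero (hG.lq_ne j) hls
  let m : κ → K := fun j => D (lin (lq j) y / lin ls y) / (lin (lq j) y / lin ls y)
  have hm1 : ∀ j, D (lin (lq j) y / lin ls y) = m j * (lin (lq j) y / lin ls y) := by
    intro j
    simp only [m]
    rw [div_mul_cancel₀ _ (hv1 j)]
  have hself := linC_self (k := k) (y := y) (Pr := PrC (consts D) y)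
    fun p hp => ⟨hp.1, hp.2.1⟩
  have hQv : ∀ (e : Fin (n + 1) → K), LinC (PrC (consts D) y) y e → ∀ (c c' : K) j,
      val (fun l => c * y l + c' * e l) (Q j) = val y (Q j) / lin (lq j) y ^ (Q j).totalDegree *
        (c * lin (lq j) y + c' * lin (lq j) e) ^ (Q j).totalDegree := by
    intro e he c c' j
    have h1 := hG.lq_val K _ (hself.comb he c c').inV j
    rw [lin_add_smul] at h1
    exact h1
  by_cases hall : ∀ j, m j = 0
  · -- an affine line
    let v : Fin (n + 1) → K := fun i => lin ls y * D (y i / lin ls y)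
    have hv : ∀ L : Fin (n + 1) → k, lin L v = lin ls y * D (lin L y / lin ls y) := by
      intro L
      rw [← lin_div, ← lin_der, ← lin_smul]
    have hvC : LinC (PrC (consts D) y) y v := by
      refine ⟨fun L hL => ?_, fun p hp => ?_⟩
      · rw [hv, hL, zero_div, map_zero, mul_zero]
      · obtain ⟨h1, h2, h3⟩ := hp
        have h3' : D (lin p.1 y / lin p.2 y) = 0 := h3
        rw [hv, hv]
        have h4 : lin p.1 y / lin ls y = (lin p.1 y / lin p.2 y) * (lin p.2 y / lin ls y) := by
          field_simp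
        rw [h4, D.leibniz, h3', smul_zero, add_zero, smul_eq_mul]
        ring
    refine ⟨v, ∅, ?_, fun c c' i => hG.van K _ (hself.comb hvC c c').inV i,
      fun c c' j hj => absurd hj (Set.notMem_empty j), fun c c' j _ => ?_⟩
    · obtain ⟨i, j, hij⟩ := moves (k := k) halg hD0
      refine ⟨i, j, fun h0 => hij ?_⟩
      have h1 : ∀ i, v i = D (y i) - D (lin ls y) / lin ls y * y i := by
        intro i
        simp only [v]
        have h3 : D (y i) = (y i / lin ls y) * D (lin ls y) + lin ls y * D (y i / lin ls y) := by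
          conv_lhs => rw [show y i = (y i / lin ls y) * lin ls y by field_simp]
          rw [D.leibniz]
          simp only [smul_eq_mul]
        rw [h3]
        field_simp
        ring
      rw [h1, h1] at h0
      linear_combination h0
    · rw [hQv v hvC, hv, hm1, hall, zero_mul, mul_zero, mul_zero, add_zero, mul_pow]
      have := hG.lq_ne j
      field_simp
  · push Not at hall
    obtain ⟨j0, hj0⟩ := hall
    obtain ⟨j1, rfl⟩ := hls1 ⟨j0⟩
    have hmj1 : m j1 = 0 := by
      simp only [m]
      rw [div_self hls, D.map_one_eq_zero, zero_div]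
    let s : Finset K := (Finset.univ.image m).erase (m j0)
    obtain ⟨e, he, heq⟩ := eig hls hG.lq_ne hm1 hm (s := s) (by
      intro μ hμ
      obtain ⟨j, -, rfl⟩ := Finset.mem_image.1 (Finset.mem_of_mem_erase hμ)
      exact hm j)
    have hprod0 : ∀ j, m j ≠ m j0 → ∏ μ ∈ s, (m j - μ) = 0 := by
      intro j hj
      apply Finset.prod_eq_zero (i := m j)
      · exact Finset.mem_erase.2 ⟨hj, Finset.mem_image_of_mem _ (Finset.mem_univ _)⟩
      · exact sub_self _
    have hc0 : ∏ μ ∈ s, (m j0 - μ) ≠ 0 := by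
      rw [Finset.prod_ne_zero_iff]
      intro μ hμ
      exact sub_ne_zero.2 (Finset.ne_of_mem_erase hμ).symm
    set c0 := ∏ μ ∈ s, (m j0 - μ) with hc0def
    have hvC : LinC (PrC (consts D) y) y (fun l => 0 * y l + c0⁻¹ * e l) := hself.comb he 0 c0⁻¹
    have hlv : ∀ L : Fin (n + 1) → k, lin L (fun l => 0 * y l + c0⁻¹ * e l) =
        c0⁻¹ * lin L e := by
      intro L
      rw [lin_add_smul, zero_mul, zero_add]
    refine ⟨fun l => 0 * y l + c0⁻¹ * e l, {j | m j = m j0}, ?_,
      fun c c' i => hG.van K _ (hself.comb hvC c c').inV i, fun c c' j hj => ?_,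
      fun c c' j hj => ?_⟩
    · by_contra hcon
      push Not at hcon
      obtain ⟨i1, hi1⟩ := Function.ne_iff.1 hy0
      have hi1' : y i1 ≠ 0 := hi1
      have h1 : (fun l => 0 * y l + c0⁻¹ * e l) =
          fun l => ((0 * y i1 + c0⁻¹ * e i1) / y i1) * y l := by
        funext l
        have h2 := hcon l i1
        field_simp
        field_simp at h2
        linear_combination -h2
      have h2 : lin (lq j1) (fun l => 0 * y l + c0⁻¹ * e l) = 0 := by
        rw [hlv, heq, hprod0 j1 (by rw [hmj1]; exact fun h => hj0 h.symm), mul_zero, mul_zero]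
      have h3 : lin (lq j0) (fun l => 0 * y l + c0⁻¹ * e l) = lin (lq j0) y := by
        rw [hlv, heq, ← hc0def]
        field_simp
      rw [h1, lin_smul] at h2 h3
      have h4 := (mul_eq_zero.1 h2).resolve_right hls
      rw [h4, zero_mul] at h3
      exact hG.lq_ne j0 h3.symm
    · have hj' : m j = m j0 := hj
      rw [hQv _ hvC, hlv, heq, hj', ← hc0def]
      have h1 : c * lin (lq j) y + c' * (c0⁻¹ * (lin (lq j) y * c0)) =
          (c + c') * lin (lq j) y := by
        field_simp
      rw [h1, mul_pow]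
      have := hG.lq_ne j
      field_simp
    · have hj' : m j ≠ m j0 := hj
      rw [hQv _ hvC, hlv, heq, hprod0 j hj', mul_zero, mul_zero, mul_zero, add_zero, mul_pow]
      have := hG.lq_ne j
      field_simp

end Pool.Agent.W603.GY
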