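import Pool.Agent.W603.GY.Torus

/-!
The connected components of the arrangement of the linear forms of the boundary.
-/

set_option autoImplicit false

open FF IntermediateField Pool.Agent.W603.LV Pool.Agent.W603.GR Pool.Agent.W603.GW
  Pool.Agent.W602.GT Pool.Agent.W603.GX

namespace Pool.Agent.W603.GY

variable {k : Type} [Field k]

/-- a numbering of the classes of an equivalence relation on a finite set -/
theorem numbering {κ : Type} [Finite κ] (r : Setoid κ) (j1 : κ) :
    ∃ (q : ℕ) (c : κ → Fin (q + 1)) (rep : Fin (q + 1) → κ), (∀ a, c (rep a) = a) ∧ c j1 = 0 ∧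
      ∀ j j', c j = c j' ↔ r j j' := by
  classical
  have hfin : Finite (Quotient r) := Quotient.finite _
  obtain ⟨N, ⟨φ⟩⟩ := Finite.exists_equiv_fin (Quotient r)
  obtain ⟨q, rfl⟩ : ∃ q, N = q + 1 := by
    cases N with
    | zero => exact (φ (Quotient.mk r j1)).elim0
    | succ q => exact ⟨q, rfl⟩
  let ψ : Quotient r ≃ Fin (q + 1) := φ.trans (Equiv.swap (φ (Quotient.mk r j1)) 0)
  refine ⟨q, fun j => ψ (Quotient.mk r j), fun a => (ψ.symm a).out, fun a => ?_, ?_,
    fun j j' => ?_⟩
  · change ψ (Quotient.mk r (ψ.symm a).out) = a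
    rw [Quotient.out_eq, Equiv.apply_symm_apply]
  · change (Equiv.swap (φ (Quotient.mk r j1)) 0) (φ (Quotient.mk r j1)) = 0
    rw [Equiv.swap_apply_left]
  · rw [ψ.injective.eq_iff, Quotient.eq]

variable {K : Type} [Field K] [Algebra k K]

theorem classes [CharZero k] {κ : Type} [Finite κ] {h p : ℕ} (t : Fin h → K) (u : Fin p → K)
    (hbasis : IsTranscendenceBasis k (Sum.elim t u)) (hu0 : ∀ b, u b ≠ 0) (w : κ → K)
    (hw : ∀ j, w j ≠ 0) (j1 : κ) (hw1 : w j1 = 1) (jj : Fin p → κ) (cu : Fin p → K)
    (hcu : ∀ b, cu b ≠ 0)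
    (hu : ∀ D : Derivation k K K, (∀ i, D (t i) = 0) → ∀ b, D (u b) / u b =
      cu b * (D (w (jj b)) / w (jj b)))
    (A : κ → Option (Fin p) → K)
    (hA : ∀ D : Derivation k K K, (∀ i, D (t i) = 0) → ∀ j a, D (A j a) = 0)
    (hsum : ∀ j, w j = ∑ a : Option (Fin p), A j a * w (a.elim j1 jj)) :
    ∃ (q : ℕ) (c : κ → Fin (q + 1)) (rep : Fin (q + 1) → κ) (Dc : Fin q → Derivation k K K),
      (∀ a, c (rep a) = a) ∧ c j1 = 0 ∧ (∀ l i, Dc l (t i) = 0) ∧
      (∀ l j, Dc l (w j) = if c j = l.succ then w j else 0) ∧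
      ∀ D : Derivation k K K, (∀ i, D (t i) = 0) →
        (∀ b j, j ≠ j1 → D (A j (some b) * w (jj b) / w j) = 0) →
        ∀ j j', c j = c j' → D (w j / w j') = 0 := by
  classical
  have hK : CharZero K := charZero_of_injective_algebraMap (algebraMap k K).injective
  let R : κ → κ → Prop := fun j j' => ∃ a : Option (Fin p), j ≠ j1 ∧ A j a ≠ 0 ∧
    j' = a.elim j1 jj
  obtain ⟨q, c, rep, hrep, hc1, hc⟩ := numbering (Relation.EqvGen.setoid R) j1
  have hcR : ∀ j a, j ≠ j1 → A j a ≠ 0 → c (a.elim j1 jj) = c j := by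
    intro j a hj ha
    rw [eq_comm, hc]
    exact Relation.EqvGen.rel _ _ ⟨a, hj, ha, rfl⟩
  have hDc : ∀ l : Fin q, ∃ D : Derivation k K K, (∀ i, D (t i) = 0) ∧
      ∀ b, D (u b) = if c (jj b) = l.succ then cu b * u b else 0 := by
    intro l
    obtain ⟨D, hD⟩ := exists_der (Sum.elim t u) hbasis
      (Sum.elim (fun _ => 0) fun b => if c (jj b) = l.succ then cu b * u b else 0)
    exact ⟨D, fun i => hD (Sum.inl i), fun b => hD (Sum.inr b)⟩
  choose Dc hDct hDcu using hDc
  have hDcw : ∀ l b, Dc l (w (jj b)) = if c (jj b) = l.succ then w (jj b) else 0 := by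
    intro l b
    have h1 := hu (Dc l) (hDct l) b
    rw [hDcu] at h1
    by_cases hb : c (jj b) = l.succ
    · rw [if_pos hb] at h1 ⊢
      rw [mul_div_assoc, div_self (hu0 b)] at h1
      have h2 := mul_left_cancel₀ (hcu b) h1
      rw [eq_comm, div_eq_one_iff_eq (hw _)] at h2
      exact h2
    · rw [if_neg hb] at h1 ⊢
      rw [zero_div, eq_comm] at h1
      exact (ld_zero (Dc l) (hw _)).1 ((mul_eq_zero.1 h1).resolve_left (hcu b))
  have hDcx : ∀ l (a : Option (Fin p)), Dc l (w (a.elim j1 jj)) =
      if c (a.elim j1 jj) = l.succ then w (a.elim j1 jj) else 0 := by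
    intro l a
    cases a with
    | none =>
      simp only [Option.elim_none]
      rw [hw1, (Dc l).map_one_eq_zero, hc1, if_neg (Fin.succ_ne_zero l).symm]
    | some b =>
      simp only [Option.elim_some]
      exact hDcw l b
  refine ⟨q, c, rep, Dc, hrep, hc1, hDct, fun l j => ?_, fun D hD hDA => ?_⟩
  · by_cases hj : j = j1
    · rw [hj, hw1, (Dc l).map_one_eq_zero, hc1, if_neg (Fin.succ_ne_zero l).symm]
    · have h1 : Dc l (w j) = ∑ a : Option (Fin p), A j a * Dc l (w (a.elim j1 jj)) := by
        conv_lhs => rw [hsum j]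
        rw [map_sum]
        refine Finset.sum_congr rfl fun a _ => ?_
        rw [(Dc l).leibniz, hA (Dc l) (hDct l), smul_zero, add_zero, smul_eq_mul]
      rw [h1]
      by_cases hc2 : c j = l.succ
      · rw [if_pos hc2]
        conv_rhs => rw [hsum j]
        refine Finset.sum_congr rfl fun a _ => ?_
        by_cases ha : A j a = 0
        · rw [ha, zero_mul, zero_mul]
        · rw [hDcx, if_pos (by rw [hcR j a hj ha, hc2])]
      · rw [if_neg hc2]
        refine Finset.sum_eq_zero fun a _ => ?_
        by_cases ha : A j a = 0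
        · rw [ha, zero_mul]
        · rw [hDcx, if_neg (by rw [hcR j a hj ha]; exact hc2), mul_zero]
  · -- the ratios of the members of a class
    have hrel : ∀ j j', R j j' → D (w j / w j') = 0 := by
      rintro j j' ⟨a, hj, ha, rfl⟩
      have hsome : ∀ b, A j (some b) ≠ 0 → D (w (jj b) / w j) = 0 := by
        intro b hb
        have h1 := hDA b j hj
        rw [mul_div_assoc, D.leibniz, hA D hD, smul_zero, add_zero, smul_eq_mul] at h1
        exact (mul_eq_zero.1 h1).resolve_left hb
      cases a with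
      | some b =>
        simp only [Option.elim_some]
        exact der_div_symm D (hsome b ha)
      | none =>
        simp only [Option.elim_none]
        apply der_div_symm D
        have h1 : ∑ a : Option (Fin p), A j a * w (a.elim j1 jj) / w j = 1 := by
          rw [← Finset.sum_div, ← hsum, div_self (hw j)]
        have h2 := congrArg D h1
        rw [map_sum, D.map_one_eq_zero, Fintype.sum_option] at h2
        have h3 : ∑ b : Fin p, D (A j (some b) * w ((some b : Option (Fin p)).elim j1 jj) / w j)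
            = 0 := Finset.sum_eq_zero fun b _ => hDA b j hj
        rw [h3, add_zero] at h2
        simp only [Option.elim_none] at h2
        rw [mul_div_assoc, D.leibniz, hA D hD, smul_zero, add_zero, smul_eq_mul] at h2
        exact (mul_eq_zero.1 h2).resolve_left ha
    intro j j' hjj
    rw [hc] at hjj
    have hjj' : Relation.EqvGen R j j' := hjj
    induction hjj' with
    | rel j j' h => exact hrel j j' h
    | refl j => exact der_div_self D (hw j)
    | symm j j' _ ih => exact der_div_symm D (ih (by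
        rename_i h1
        exact h1))
    | trans j j' j'' _ _ ih1 ih2 =>
      rename_i h1 h2
      exact der_div_trans D (hw j') (ih1 h1) (ih2 h2)

end Pool.Agent.W603.GY
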