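import Pool.Agent.W602.GT.KCore

/-!
Pluricanonical forms from circuits, with an additional factor, the logarithmic form of another
system of functions.
-/

set_option autoImplicit false

open FF Pool.Agent.W603.LV Pool.Agent.W602.GT

namespace Pool.Agent.W603.GY

variable {k K : Type} [Field k] [Field K] [Algebra k K]

/-- **Pluricanonical forms with an additional factor.** -/
theorem coreK2 [IsAlgClosed k] [CharZero k] {r w : ℕ} {m : Fin r → ℕ}
    (T : ∀ i, Fin (m i + 1) → K)
    (hT : ∀ i j, T i j ≠ 0) (hsum : ∀ i, ∑ j, T i j = 0)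
    (hlin : ∀ i, LinearIndependent k (fun l => T i ((Fin.last (m i)).succAbove l)))
    (x : Fin w → K) (hx0 : ∀ q, x q ≠ 0) (hbasis : IsTranscendenceBasis k x) :
    ∃ g : (∀ i, Fin (m i + 1)) → K, (∀ c, g c ≠ 0) ∧
      (∀ c c', g c * ∏ i, T i (c' i) = g c' * ∏ i, T i (c i)) ∧
      ∀ (x' : Fin w → K) (ρ : K), (∀ q, x' q ≠ 0) →
        (∀ D : Fin w → Derivation k K K, (lmat x' D).det = ρ * (lmat x D).det) →
        ∀ P : Place k K, (∀ c, LogAt P (form x (wt m + 1) (ρ * g c))) ∧
        ((∀ i j l, P.ord (T i j) = P.ord (T i l) ∨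
          ((wt m + 1 : ℕ) : ℤ) ≤ |P.ord (T i j) - P.ord (T i l)|) →
          ((∀ i j l, P.ord (T i j) = P.ord (T i l)) →
            (∀ q, P.ord (x q) = 0) ∧ ∀ q, P.ord (x' q) = 0) →
          ∀ c, RegAt P (form x (wt m + 1) (ρ * g c))) := by
  classical
  obtain ⟨lam, hlam⟩ := exists_lam k w
  obtain ⟨D0, hD0⟩ := exists_der x hbasis (fun j => algebraMap k K (lam j) * x j)
  have hconst : ∀ h, D0 h = 0 → ∃ c : k, h = algebraMap k K c := fun h hh =>
    const_of_der x hbasis lam hlam D0 hD0 hh
  have heta0 : ∀ i, eta D0 (T i) ≠ 0 := fun i =>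
    div_ne_zero (wr_ne hconst _ (hlin i)) (Finset.prod_ne_zero_iff.2 fun j _ => hT i j)
  have hfac0 : ∀ i c, fac D0 (T i) c ≠ 0 := fun i c =>
    mul_ne_zero (mul_ne_zero (pow_ne_zero _ (heta0 i))
      (Finset.prod_ne_zero_iff.2 fun j _ => hT i j)) (hT i c)
  have hGG0 : ∀ c, GG T D0 c ≠ 0 := fun c => Finset.prod_ne_zero_iff.2 fun i _ => hfac0 i _
  have hpt : (∏ j, x j) ≠ 0 := Finset.prod_ne_zero_iff.2 fun j _ => hx0 j
  set N := wt m + 1 with hN
  have hNw : wt m ≤ N := Nat.le_succ _
  refine ⟨fun c => GG T D0 c / (∏ j, x j) ^ N, fun c => div_ne_zero (hGG0 _) (pow_ne_zero _ hpt),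
    ?_, ?_⟩
  · intro c c'
    have h1 : ∀ c : ∀ i, Fin (m i + 1), GG T D0 c =
        (∏ i, eta D0 (T i) ^ (m i + 2) * ∏ j, T i j) * ∏ i, T i (c i) := by
      intro c
      unfold GG fac
      rw [Finset.prod_mul_distrib]
    beta_reduce
    rw [h1 c, h1 c']
    ring
  · intro x' ρ hx0' hρ P
    have hmin : ∀ i, ∃ b' : Fin (m i + 1), ∀ j, P.ord (T i b') ≤ P.ord (T i j) := fun i =>
      Finite.exists_min _
    choose b' hb' using hmin
    have hkey : ∀ (D : Fin w → Derivation k K K) (c : ∀ i, Fin (m i + 1)),
        ρ * (GG T D0 c / (∏ j, x j) ^ N) * (Matrix.of fun i j => D i (x j)).det ^ N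
          = GG T (con x lam D) c * (lmat x' D).det := by
      intro D c
      have h1 : con x lam D = (lmat x D).det • D0 := by
        apply der_ext x hbasis
        intro l
        rw [con_t x lam D hx0 l, Derivation.coe_smul, Pi.smul_apply, hD0, smul_eq_mul]
        ring
      have h2 : (Matrix.of fun i j => D i (x j)).det = (∏ j, x j) * (lmat x D).det := by
        rw [← Matrix.det_mul_row]
        congr 1
        ext i j
        simp only [Matrix.of_apply, lmat]
        have := hx0 j
        field_simp
      have h3 : (lmat x D).det ^ N = (lmat x D).det ^ wt m * (lmat x D).det := by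
        rw [hN, pow_succ]
      rw [h1, GG_smul, h2, mul_pow, h3, hρ D]
      field_simp
    refine ⟨fun c D hD => ?_, fun hP hPx c D hD => ?_⟩
    · unfold form
      rw [hkey, reg_iff_ge]
      have h1 := ge_GG T (E := con x lam D) hT hb' (ε := 0) (fun i => by
        have hE : ∀ z : K, z ≠ 0 → Ge P (-0) (con x lam D z / z) := fun z hz => by
          rw [neg_zero]
          exact con_log x lam D hD z
        exact eta_log hE (hT i) (hsum i) (b' i)) c
      have h2 := h1.mul (ge_lmat_log x' D hD)
      refine h2.mono ?_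
      rw [zero_mul, sub_zero, add_zero]
      exact Finset.sum_nonneg fun i _ => Finset.sum_nonneg fun j _ => sub_nonneg.2 (hb' i j)
    · unfold form
      rw [hkey, reg_iff_ge]
      by_cases hall : ∀ i j, P.ord (T i j) = P.ord (T i (b' i))
      · obtain ⟨hx1, hx1'⟩ := hPx fun i j l => by rw [hall i j, hall i l]
        have hE := con_reg x lam D hD hx0 hx1
        have h1 := ge_GG T (E := con x lam D) hT hb' (ε := 0) (fun i => by
          rw [zero_mul, sub_zero]
          exact eta_reg hE (hT i) (hsum i) (b' i) (hall i)) c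
        have h2 := h1.mul (ge_lmat_reg x' hx0' hx1' D hD)
        refine h2.mono ?_
        rw [zero_mul, sub_zero, add_zero]
        exact Finset.sum_nonneg fun i _ => Finset.sum_nonneg fun j _ => sub_nonneg.2 (hb' i j)
      · push Not at hall
        obtain ⟨i0, j0, hij⟩ := hall
        have h1 := ge_GG T (E := con x lam D) hT hb' (ε := 1) (fun i => by
          have hE : ∀ z : K, z ≠ 0 → Ge P (-1) (con x lam D z / z) := fun z hz =>
            con_pole x lam D hD hx0 hz
          exact eta_log hE (hT i) (hsum i) (b' i)) c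
        have h2 := h1.mul (det_log D hD x' hx0')
        refine h2.mono ?_
        have h3 : P.ord (T i0 j0) - P.ord (T i0 (b' i0))
            ≤ ∑ i, ∑ j, (P.ord (T i j) - P.ord (T i (b' i))) := by
          refine le_trans ?_ (Finset.single_le_sum
            (f := fun i => ∑ j, (P.ord (T i j) - P.ord (T i (b' i))))
            (fun i _ => Finset.sum_nonneg fun j _ => sub_nonneg.2 (hb' i j)) (Finset.mem_univ i0))
          exact Finset.single_le_sum (f := fun j => P.ord (T i0 j) - P.ord (T i0 (b' i0)))
            (fun j _ => sub_nonneg.2 (hb' i0 j)) (Finset.mem_univ j0)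
        have h4 : (N : ℤ) ≤ P.ord (T i0 j0) - P.ord (T i0 (b' i0)) := by
          have h5 := (hP i0 j0 (b' i0)).resolve_left hij
          rw [abs_of_nonneg (sub_nonneg.2 (hb' i0 j0))] at h5
          exact h5
        rw [hN] at h4
        push_cast at h4
        rw [one_mul]
        linarith

/-- the logarithmic form of a system with one member replaced -/
theorem lmat_update [CharZero k] {w : ℕ} {x : Fin w → K} (hx0 : ∀ q, x q ≠ 0)
    (hbasis : IsTranscendenceBasis k x) (q : Fin w) {u : K} (ρ : K)
    (hρ : ∀ E : Derivation k K K, (∀ q', q' ≠ q → E (x q') = 0) → E u / u = ρ * (E (x q) / x q))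
    (D : Fin w → Derivation k K K) :
    (lmat (Function.update x q u) D).det = ρ * (lmat x D).det := by
  classical
  have h0 : ∀ i : Fin w, ∃ E : Derivation k K K, ∀ j, E (x j) = if j = i then x j else 0 :=
    fun i => exists_der x hbasis _
  choose E hE using h0
  have h1 : ∀ i, D i = ∑ j, (D i (x j) / x j) • E j := by
    intro i
    apply der_ext x hbasis
    intro l
    have h2 : ∀ s : Finset (Fin w), (∑ j ∈ s, (D i (x j) / x j) • E j) (x l) =
        ∑ j ∈ s, (D i (x j) / x j) * E j (x l) := by
      intro s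
      induction s using Finset.induction_on with
      | empty => simp
      | insert a s ha ih =>
        rw [Finset.sum_insert ha, Finset.sum_insert ha, Derivation.add_apply, ih]
        rfl
    rw [h2, Finset.sum_eq_single l]
    · rw [hE, if_pos rfl, div_mul_cancel₀ _ (hx0 l)]
    · intro j _ hj
      rw [hE, if_neg (Ne.symm hj), mul_zero]
    · intro h
      exact absurd (Finset.mem_univ _) h
  have h2 : ∀ i f, D i f = ∑ j, (D i (x j) / x j) * E j f := by
    intro i f
    have h3 : ∀ s : Finset (Fin w), (∑ j ∈ s, (D i (x j) / x j) • E j) f =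
        ∑ j ∈ s, (D i (x j) / x j) * E j f := by
      intro s
      induction s using Finset.induction_on with
      | empty => simp
      | insert a s ha ih =>
        rw [Finset.sum_insert ha, Finset.sum_insert ha, Derivation.add_apply, ih]
        rfl
    conv_lhs => rw [h1 i]
    rw [h3]
  have h3 : lmat (Function.update x q u) D = (lmat x D).updateCol q
      (Matrix.mulVec (lmat x D) fun j => E j u / u) := by
    ext i j
    rw [Matrix.updateCol_apply]
    by_cases hj : j = q
    · subst hj
      rw [if_pos rfl]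
      simp only [lmat, Matrix.of_apply, Function.update_self, Matrix.mulVec, dotProduct]
      rw [h2 i u, Finset.sum_div]
      exact Finset.sum_congr rfl fun j _ => by ring
    · rw [if_neg hj]
      simp only [lmat, Matrix.of_apply, Function.update_of_ne hj]
  rw [h3, ← Matrix.cramer_apply, Matrix.cramer_eq_adjugate_mulVec, Matrix.mulVec_mulVec,
    Matrix.adjugate_mul, Matrix.smul_mulVec, Matrix.one_mulVec, Pi.smul_apply, smul_eq_mul,
    hρ (E q) (fun q' hq' => by rw [hE, if_neg hq']), hE, if_pos rfl, div_self (hx0 q), mul_one,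
    mul_comm]

end Pool.Agent.W603.GY
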