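import Pool.Agent.W603.GY.Flow2
import Pool.Agent.W602.GT.KBd

/-!
One-parameter groups on the punctured lines, and upper bounds for the logarithmic Kodaira
dimension.
-/

set_option autoImplicit false

open FF IntermediateField Pool.Agent.W603.LV Pool.Agent.W603.GR Pool.Agent.W603.GW
  Pool.Agent.W602.GT Pool.Agent.W603.GX

namespace Pool.Agent.W603.GY

variable {k : Type} [Field k] {n : ℕ} {ι κ : Type}

/-- **Punctured lines.** Let `v` be a direction on which the forms of the boundary either vanish or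
are proportional to `l0`. The field has a one-parameter group, and the places that are trivial on
the invariants and on `l0` have a centre. -/
theorem dir [IsAlgClosed k] [CharZero k] [Finite κ] {F : ι → MvPolynomial (Fin (n + 1)) k}
    {Q : κ → MvPolynomial (Fin (n + 1)) k} (hQh : ∀ j, IsForm (Q j))
    {K : Type} [Field K] [Algebra k K] {w : ℕ} {y : Fin (n + 1) → K} (hy : SubVarQ F Q K w y)
    (hcomp : IsComponentQ F Q y) {Pr : Set ((Fin (n + 1) → k) × (Fin (n + 1) → k))}
    {lq : κ → Fin (n + 1) → k} (hG : Good F Q y Pr lq) (v : Fin (n + 1) → K)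
    (hvZ : ∀ l : Fin (n + 1) → k, lin l y = 0 → lin l v = 0)
    (hvQ : ∀ p ∈ Pr, lin p.1 v = lin p.1 y / lin p.2 y * lin p.2 v) {ls : Fin (n + 1) → k}
    (hls : lin ls y ≠ 0) (hlv : lin ls v = 0) {l0 : Fin (n + 1) → k} (hl0 : lin l0 v ≠ 0)
    (hprop : ∀ j, lin (lq j) v = 0 ∨ (lq j, l0) ∈ Pr) :
    ∃ δ : Derivation k K K, lin l0 y / lin ls y ≠ 0 ∧
      δ (lin l0 y / lin ls y) = lin l0 y / lin ls y ∧
      (consts δ)⟮lin l0 y / lin ls y⟯ = ⊤ ∧
      (∀ P : Place k K, (∀ c : K, δ c = 0 → c ≠ 0 → P.ord c = 0) →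
        P.ord (lin l0 y / lin ls y) = 0 → ¬ OffAny Q y P) ∧
      (∀ l : Fin (n + 1) → k, lin l v = 0 → δ (lin l y / lin ls y) = 0) ∧
      ∀ p ∈ Pr, δ (lin p.1 y / lin p.2 y) = 0 := by
  obtain ⟨C, z, e, h1, h2, h3, h4, h5, h6, h7, h8, h9, h10, h11⟩ := flow2 hQh hy hcomp hG v hvZ
    hvQ hls hlv hl0
  have hQne : ∀ j, Q j ≠ 0 := by
    intro j h0
    apply hy.off j
    rw [h0]
    unfold Pool.Agent.W602.GT.val
    rw [map_zero]
  have hfd : FlowData Q y lq C (lin ls y) (lin l0 y / lin ls y) z e := ⟨fun j => by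
    obtain ⟨d, hd⟩ := hQh j
    rw [hd.totalDegree (hQne j)]
    exact hd, hy.off, hls, h1, h2, h3, h4, h5, hG.lq_ne, h7⟩
  obtain ⟨δ, hδ, hδC, hδtop⟩ := delta_of C h1 h2
  have hl0y : lin l0 y ≠ 0 := fun h0 => hl0 (hvZ l0 h0)
  refine ⟨δ, div_ne_zero hl0y hls, hδ, hδtop, fun P hP hτ => ?_, fun l hl => ?_,
    fun p hp => hδC _ (h9 p hp)⟩
  · have hPC : ∀ x ∈ C, x ≠ 0 → P.ord x = 0 := fun x hx h0 => hP x (hδC x hx) h0
    refine hfd.not_off hPC hτ.ge fun j => ?_
    rcases hprop j with hj | hj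
    · refine hPC _ ?_ (div_ne_zero (hG.lq_ne j) hls)
      rw [hfd.lin_u, h6 _ hj, zero_mul, add_zero]
      exact lin_mem C _ h3
    · have h12 : lin (lq j) y / lin ls y = (lin (lq j) y / lin l0 y) * (lin l0 y / lin ls y) := by
        field_simp
      rw [h12, P.ord_mul (div_ne_zero (hG.lq_ne j) hl0y) (div_ne_zero hl0y hls), hτ,
        hPC _ (h9 _ hj) (div_ne_zero (hG.lq_ne j) hl0y), add_zero]
  · apply hδC
    rw [hfd.lin_u, h6 l hl, zero_mul, add_zero]
    exact lin_mem C _ h3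

/-- the sections have constant ratios -/
theorem ratio_sec [CharZero k] {K : Type} [Field K] [Algebra k K] {w : ℕ}
    (htr : Algebra.trdeg k K = w) {Bd : Place k K → Prop} (δ : Derivation k K K) {σ : K}
    (hσ0 : σ ≠ 0) (hσ : δ σ = σ) (htop : (consts δ)⟮σ⟯ = ⊤)
    (hBd : ∀ P : Place k K, (∀ c : K, δ c = 0 → c ≠ 0 → P.ord c = 0) → P.ord σ = 0 → ¬ Bd P)
    (N : ℕ) (ω ω' : (Fin w → Derivation k K K) → K) (hω : LogSec k K w N Bd ω)
    (hω' : LogSec k K w N Bd ω') (D' : Fin w → Derivation k K K) (hne : ω' D' ≠ 0) :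
    δ (ω D' / ω' D') = 0 := by
  obtain ⟨D, hD, hconst, -⟩ := sec_const htr (Bd := Bd) δ hσ0 hσ htop hBd
  obtain ⟨M, hM⟩ := hD D'
  have h1 : ω D' = M.det ^ N * ω D := by rw [← hM, hω.1]
  have h2 : ω' D' = M.det ^ N * ω' D := by rw [← hM, hω'.1]
  have h3 : M.det ^ N ≠ 0 := by
    intro h0
    apply hne
    rw [h2, h0, zero_mul]
  have h4 : ω D ∈ consts δ := hconst N ω hω
  have h5 : ω' D ∈ consts δ := hconst N ω' hω'
  have h6 : ω D' / ω' D' ∈ consts δ := by
    rw [h1, h2, mul_div_mul_left _ _ h3]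
    exact div_mem h4 h5
  exact h6

/-- **Upper bounds.** -/
theorem kod_le2 [CharZero k] {K : Type} [Field K] [Algebra k K] {w : ℕ}
    (htr : Algebra.trdeg k K = w) {Bd : Place k K → Prop} {p : ℕ} (δ : Fin p → Derivation k K K)
    (f : Fin p → K)
    (hδ1 : ∀ l N (ω ω' : (Fin w → Derivation k K K) → K), LogSec k K w N Bd ω →
        LogSec k K w N Bd ω' → ∀ D', ω' D' ≠ 0 → δ l (ω D' / ω' D') = 0)
    (hδ2 : ∀ l, δ l (f l) ≠ 0) (hδ3 : ∀ l m, m ≠ l → δ l (f m) = 0) {h : ℕ}
    (hk : KodGe k K w Bd h) : h + p ≤ w := by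
  classical
  have hK : CharZero K := charZero_of_injective_algebraMap (algebraMap k K).injective
  obtain ⟨N, hN, ω, hω, D', hD', hind⟩ := hk
  have hf : ∀ l (i : Fin h), δ l (ω i.succ D' / ω 0 D') = 0 := fun l i =>
    hδ1 l N _ _ (hω _) (hω _) D' hD'
  -- extend the ratios to a transcendence basis
  have hindr : AlgebraicIndepOn k id (Set.range fun i : Fin h => ω i.succ D' / ω 0 D') :=
    hind.coe_range
  obtain ⟨B, hB1, hB⟩ := exists_isTranscendenceBasis_superset hindr
  have hcard : Cardinal.mk B = (w : Cardinal) := by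
    rw [← htr]
    exact hB.cardinalMk_eq_trdeg
  have hfinB : B.Finite := by
    rw [← Set.finite_coe_iff, ← Cardinal.lt_aleph0_iff_finite, hcard]
    exact Cardinal.natCast_lt_aleph0
  set R := Set.range fun i : Fin h => ω i.succ D' / ω 0 D' with hR
  have hfin2 : Finite (B \ R : Set K) := (hfinB.subset Set.sdiff_subset).to_subtype
  obtain ⟨q, ⟨ψ⟩⟩ := Finite.exists_equiv_fin (B \ R : Set K)
  have hq : h + q = w := by
    have e1 : R ≃ Fin h := (Equiv.ofInjective _ hind.injective).symm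
    have h1 := Cardinal.mk_congr (Equiv.Set.sumDiffSubset hB1)
    rw [hcard, Cardinal.mk_sum, Cardinal.mk_congr e1, Cardinal.mk_congr ψ] at h1
    simp only [Cardinal.mk_fin, Cardinal.lift_natCast] at h1
    exact_mod_cast h1
  by_contra hcon
  push Not at hcon
  have hqp : q < p := by omega
  let L : (Fin p → K) →ₗ[K] (Fin q → K) :=
    { toFun := fun c i => ∑ l, c l * δ l ((ψ.symm i : (B \ R : Set K)) : K)
      map_add' := by
        intro c c'
        funext i
        simp only [Pi.add_apply, add_mul, Finset.sum_add_distrib]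
      map_smul' := by
        intro a c
        funext i
        simp only [Pi.smul_apply, smul_eq_mul, RingHom.id_apply, mul_assoc, Finset.mul_sum] }
  have hker : LinearMap.ker L ≠ ⊥ := LinearMap.ker_ne_bot_of_finrank_lt (by
    rw [Module.finrank_fin_fun, Module.finrank_fin_fun]
    exact hqp)
  obtain ⟨c, hc, hc0⟩ := Submodule.exists_mem_ne_zero_of_ne_bot hker
  have hLc : L c = 0 := hc
  let D : Derivation k K K := ∑ l, c l • δ l
  have hDval : ∀ z, D z = ∑ l, c l * δ l z := by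
    intro z
    have h0 : ∀ (s : Finset (Fin p)), (∑ l ∈ s, c l • δ l) z = ∑ l ∈ s, c l * δ l z := by
      intro s
      induction s using Finset.induction_on with
      | empty => simp
      | insert l s hl ih =>
        rw [Finset.sum_insert hl, Finset.sum_insert hl, Derivation.add_apply, ih]
        rfl
    exact h0 _
  have hD0 : D = 0 := by
    apply der_ext _ hB
    intro z
    rw [Derivation.zero_apply]
    by_cases hz : (z : K) ∈ R
    · obtain ⟨i, hi⟩ := hz
      rw [← hi, hDval]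
      exact Finset.sum_eq_zero fun l _ => by rw [hf l i, mul_zero]
    · have h1 := congrFun hLc (ψ ⟨z, z.2, hz⟩)
      change ∑ l, c l * δ l ((ψ.symm (ψ ⟨z, z.2, hz⟩) : (B \ R : Set K)) : K) = 0 at h1
      rw [Equiv.symm_apply_apply] at h1
      rw [hDval]
      exact h1
  apply hc0
  funext l
  have h1 := hDval (f l)
  rw [hD0, Derivation.zero_apply, Finset.sum_eq_single l] at h1
  · exact (mul_eq_zero.1 h1.symm).resolve_right (hδ2 l)
  · intro m _ hm
    rw [hδ3 m l hm.symm, mul_zero]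
  · intro h2
    exact absurd (Finset.mem_univ _) h2

end Pool.Agent.W603.GY
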