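import Pool.Agent.W603.GY.Core2
import Pool.Agent.W603.GX.Units

/-!
Sections of the log canonical bundle from vanishing sums and units, with the ratios of the
logarithmic forms.
-/

set_option autoImplicit false

open FF IntermediateField Pool.Agent.W603.LV Pool.Agent.W602.GT Pool.Agent.W603.GX

namespace Pool.Agent.W603.GY

variable {k K : Type} [Field k] [Field K] [Algebra k K]

/-- **Sections.** As `kod_units`, with more sections: besides the ratios of members of circuits
also the ratios of the logarithmic forms of units are ratios of sections. -/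
theorem kod_units2 [IsAlgClosed k] [CharZero k] {w : ℕ} (htr : Algebra.trdeg k K = w)
    {Ε : Type} {J : Ε → Type} [∀ e, Fintype (J e)]
    (g : ∀ e, J e → K) (hg : ∀ e j, g e j ≠ 0) {s : ℕ}
    (hs : ∀ e, Fintype.card (J e) ≤ s) (Bd : Place k K → Prop)
    (hjump : ∀ P : Place k K, ¬ Bd P → ∀ e i j, P.ord (g e i) = P.ord (g e j) ∨
      ((w * ((s + 1) * tn (s - 1)) : ℕ) : ℤ) ≤ |P.ord (g e i) - P.ord (g e j)|)
    (Su : Set K) (hSu : ∀ u ∈ Su, u ≠ 0) (hunit : ∀ P : Place k K, ¬ Bd P → ∀ u ∈ Su, P.ord u = 0)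
    (hker : ∀ D : Derivation k K K, (∀ e (C : CD k (g e)) (a b : Fin (C.m + 1)),
      D (g e (C.e a) / g e (C.e b)) = 0) → (∀ u ∈ Su, D u = 0) → D = 0) :
    ∃ (h p : ℕ) (t : Fin h → K) (u : Fin p → K), h + p = w ∧
      IsTranscendenceBasis k (Sum.elim t u) ∧ (∀ i, u i ∈ Su) ∧
      (∀ D : Derivation k K K, (∀ i, D (t i) = 0) →
        ∀ e (C : CD k (g e)) (a b : Fin (C.m + 1)), D (g e (C.e a) / g e (C.e b)) = 0) ∧
      (∀ D : Derivation k K K, (∀ e (C : CD k (g e)) (a b : Fin (C.m + 1)),
        D (g e (C.e a) / g e (C.e b)) = 0) → ∀ i, D (t i) = 0) ∧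
      KodGe k K w Bd h ∧
      (0 < p → ∀ (h' : ℕ) (a : Fin h' → K), AlgebraicIndependent k a →
        (∀ i, (∃ l, a i = t l) ∨ ∃ (q : Fin p) (u' : K), u' ∈ Su ∧
          ∀ E : Derivation k K K, (∀ i, E (t i) = 0) → (∀ q', q' ≠ q → E (u q') = 0) →
            E u' / u' = a i * (E (u q) / u q)) → KodGe k K w Bd h') := by
  classical
  let I : Type := Σ e : Ε, Σ C : CD k (g e), Fin (C.m + 1) × Fin (C.m + 1)
  let TT : ∀ i : I, Fin (i.2.1.m + 1) → K := fun i l => i.2.1.c l • g i.1 (i.2.1.e l)
  have hTT : ∀ i j, TT i j ≠ 0 := fun i j => smul_ne_zero (i.2.1.hc j) (hg _ _)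
  have hordT : ∀ (P : Place k K) (i : I) j, P.ord (TT i j) = P.ord (g i.1 (i.2.1.e j)) :=
    fun P i j => ord_smul' P (i.2.1.hc j) _
  let S1 : Set K := Set.range fun i : I => TT i i.2.2.1 / TT i i.2.2.2
  have hS1 : ∀ D : Derivation k K K, (∀ z ∈ S1, D z = 0) →
      ∀ e (C : CD k (g e)) (a b : Fin (C.m + 1)), D (g e (C.e a) / g e (C.e b)) = 0 := by
    intro D hD e C a b
    exact algebraMap_div_eq _ _ _ _ (hg _ _) (C.hc b) D (C.hc a) (hD _ ⟨⟨e, C, a, b⟩, rfl⟩)
  have hS1' : ∀ D : Derivation k K K, (∀ e (C : CD k (g e)) (a b : Fin (C.m + 1)),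
      D (g e (C.e a) / g e (C.e b)) = 0) → ∀ z ∈ S1, D z = 0 := by
    rintro D hD z ⟨⟨e, C, a, b⟩, rfl⟩
    change D (C.c a • g e (C.e a) / (C.c b • g e (C.e b))) = 0
    have h1 : C.c a • g e (C.e a) / (C.c b • g e (C.e b)) =
        (C.c a / C.c b) • (g e (C.e a) / g e (C.e b)) := by
      rw [Algebra.smul_def, Algebra.smul_def, Algebra.smul_def, map_div₀]
      have h2 : algebraMap k K (C.c b) ≠ 0 := by rw [Ne, map_eq_zero]; exact C.hc b
      have h3 := hg e (C.e b)
      field_simp
    rw [h1, D.map_smul, hD e C a b, smul_zero]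
  obtain ⟨h, p, t, u, rfl, ht, hu, hbasis, hkill⟩ := basis_pick htr S1 (S1 ∪ Su)
    (alg_of_ker htr _ fun D hD => hker D (hS1 D fun z hz => hD z (Or.inl hz))
      fun z hz => hD z (Or.inr hz))
  have huS : ∀ l, u l ∈ Su := by
    intro l
    rcases hu l with h1 | h1
    · exfalso
      obtain ⟨D, hD⟩ := exists_der (Sum.elim t u) hbasis (Sum.elim (fun _ => 0) (fun _ => 1))
      have h2 := hkill D (fun i => hD (Sum.inl i)) _ h1
      have h3 := hD (Sum.inr l)
      simp only [Sum.elim_inr] at h3
      rw [h2] at h3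
      exact zero_ne_one h3
    · exact h1
  have htS := ht
  choose φ hφ using ht
  let m : Fin h → ℕ := fun i => (φ i).2.1.m
  let T : ∀ i, Fin (m i + 1) → K := fun i => TT (φ i)
  let a : ∀ i, Fin (m i + 1) := fun i => (φ i).2.2.1
  let a' : ∀ i, Fin (m i + 1) := fun i => (φ i).2.2.2
  have hT : ∀ i j, T i j ≠ 0 := fun i j => hTT _ _
  have ht' : ∀ i, t i = T i (a i) / T i (a' i) := fun i => (hφ i).symm
  let x : Fin (h + p) → K := Sum.elim t u ∘ finSumFinEquiv.symm
  have hx : IsTranscendenceBasis k x := hbasis.comp_equiv finSumFinEquiv.symm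
  have hx0 : ∀ q, x q ≠ 0 := by
    intro q
    simp only [x, Function.comp_apply]
    rcases finSumFinEquiv.symm q with i | l
    · simp only [Sum.elim_inl]
      rw [ht']
      exact div_ne_zero (hT _ _) (hT _ _)
    · exact hSu _ (huS l)
  have hwt : wt m ≤ h * ((s + 1) * tn (s - 1)) := by
    unfold wt
    calc ∑ i, (m i + 2) * tn (m i) ≤ ∑ _i : Fin h, (s + 1) * tn (s - 1) := by
          refine Finset.sum_le_sum fun i _ => ?_
          have h3 : m i + 1 ≤ s := by
            have h4 := Fintype.card_le_of_injective _ (φ i).2.1.he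
            simp only [Fintype.card_fin] at h4
            exact h4.trans (hs _)
          exact Nat.mul_le_mul (by omega) (tn_mono (by omega))
      _ = h * ((s + 1) * tn (s - 1)) := by simp
  have hunitx : ∀ P : Place k K, ¬ Bd P → (∀ i j l, P.ord (T i j) = P.ord (T i l)) →
      ∀ q, P.ord (x q) = 0 := by
    intro P hPU hall q
    simp only [x, Function.comp_apply]
    rcases finSumFinEquiv.symm q with i | l
    · simp only [Sum.elim_inl]
      rw [ht', P.ord_div (hT _ _) (hT _ _), hall i (a i) (a' i), sub_self]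
    · exact hunit P hPU _ (huS l)
  let cc : Fin h → ∀ i, Fin (m i + 1) := fun q => Function.update a' q (a q)
  have hprod : ∀ q : Fin h, ∏ i, T i (cc q i) = (∏ i, T i (a' i)) * t q := by
    intro q
    change ∏ i, T i (Function.update a' q (a q) i) = (∏ i, T i (a' i)) * t q
    rw [← Finset.mul_prod_erase Finset.univ _ (Finset.mem_univ q),
      ← Finset.mul_prod_erase Finset.univ (fun i => T i (a' i)) (Finset.mem_univ q)]
    have h4 : ∏ i ∈ Finset.univ.erase q,
        T i (Function.update a' q (a q) i) =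
        ∏ i ∈ Finset.univ.erase q, T i (a' i) := by
      refine Finset.prod_congr rfl fun i hi => ?_
      rw [Function.update_of_ne (Finset.ne_of_mem_erase hi)]
    rw [h4, Function.update_self, ht' q]
    have h5 := hT q (a' q)
    field_simp
  have ha'0 : ∏ i, T i (a' i) ≠ 0 := Finset.prod_ne_zero_iff.2 fun i _ => hT _ _
  obtain ⟨D, hD⟩ := exists_dual hx
  have hf : ∀ N c, form x N c D = c := fun N c => by
    unfold form
    rw [hD, Matrix.det_one, one_pow, mul_one]
  refine ⟨h, p, t, u, rfl, hbasis, huS, fun D hD => hS1 D (hkill D hD),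
    fun D hD i => hS1' D hD _ (htS i), ?_, ?_⟩
  · obtain ⟨G, hG0, hG, hP⟩ := coreK T hT (fun i => (φ i).2.1.rel) (fun i => (φ i).2.1.lin) x hx0
      hx
    let c1 : Fin (h + 1) → ∀ i, Fin (m i + 1) := Fin.cases a' cc
    refine ⟨max 1 (wt m), by omega, fun j => form x (max 1 (wt m)) (G (c1 j)),
      fun j => ⟨form_pluri _ _ _, fun P _ => (hP P).1 _, fun P _ hPU => (hP P).2 ?_
        (hunitx P hPU) _⟩, D, ?_, ?_⟩
    · intro i j l
      change P.ord (TT (φ i) j) = P.ord (TT (φ i) l) ∨
        _ ≤ |P.ord (TT (φ i) j) - P.ord (TT (φ i) l)|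
      rw [hordT, hordT]
      rcases hjump P hPU _ ((φ i).2.1.e j) ((φ i).2.1.e l) with h1 | h1
      · exact Or.inl h1
      · right
        refine le_trans ?_ h1
        have h2 : wt m ≤ (h + p) * ((s + 1) * tn (s - 1)) :=
          hwt.trans (Nat.mul_le_mul_right _ (by omega))
        exact_mod_cast h2
    · change form x (max 1 (wt m)) (G (c1 0)) D ≠ 0
      rw [hf]
      exact hG0 _
    · have h1 : ∀ q : Fin h, G (c1 q.succ) / G (c1 0) = t q := by
        intro q
        have h2 := hG (cc q) a'
        rw [hprod q] at h2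
        change G (cc q) / G a' = t q
        have h5 := hG0 a'
        rw [div_eq_iff h5]
        apply mul_right_cancel₀ ha'0
        rw [h2]
        ring
      simp only [hf, h1]
      exact hbasis.1.comp Sum.inl Sum.inl_injective
  · intro hp h' b hb hb'
    obtain ⟨G, hG0, hG, hP⟩ := coreK2 T hT (fun i => (φ i).2.1.rel) (fun i => (φ i).2.1.lin) x hx0
      hx
    -- the jumps
    have hjump' : ∀ P : Place k K, ¬ Bd P → ∀ i j l, P.ord (T i j) = P.ord (T i l) ∨
        ((wt m + 1 : ℕ) : ℤ) ≤ |P.ord (T i j) - P.ord (T i l)| := by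
      intro P hPU i j l
      change P.ord (TT (φ i) j) = P.ord (TT (φ i) l) ∨
        _ ≤ |P.ord (TT (φ i) j) - P.ord (TT (φ i) l)|
      rw [hordT, hordT]
      by_cases heq : P.ord (g (φ i).1 ((φ i).2.1.e j)) = P.ord (g (φ i).1 ((φ i).2.1.e l))
      · exact Or.inl heq
      · right
        have h1 := (hjump P hPU _ ((φ i).2.1.e j) ((φ i).2.1.e l)).resolve_left heq
        by_cases hA : (s + 1) * tn (s - 1) = 0
        · rw [hA, mul_zero] at hwt
          have h2 : wt m = 0 := Nat.le_zero.1 hwt
          rw [h2]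
          have h3 : P.ord (g (φ i).1 ((φ i).2.1.e j)) - P.ord (g (φ i).1 ((φ i).2.1.e l)) ≠ 0 :=
            sub_ne_zero.2 heq
          have h4 := abs_pos.2 h3
          push_cast
          omega
        · refine le_trans ?_ h1
          have h2 : wt m + 1 ≤ (h + p) * ((s + 1) * tn (s - 1)) := by
            calc wt m + 1 ≤ h * ((s + 1) * tn (s - 1)) + 1 * ((s + 1) * tn (s - 1)) := by omega
              _ = (h + 1) * ((s + 1) * tn (s - 1)) := by ring
              _ ≤ (h + p) * ((s + 1) * tn (s - 1)) := Nat.mul_le_mul_right _ (by omega)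
          exact_mod_cast h2
    -- the sections
    have hsec : ∀ i, ∃ γ : K, LogSec k K (h + p) (wt m + 1) Bd (form x (wt m + 1) γ) ∧
        γ = b i * G a' := by
      intro i
      rcases hb' i with ⟨l, hl⟩ | ⟨q, u', hu', hE⟩
      · have h1 := fun P => hP x 1 hx0 (fun D => by rw [one_mul]) P
        refine ⟨1 * G (cc l), ⟨form_pluri _ _ _, fun P _ => (h1 P).1 _, fun P _ hPU =>
          (h1 P).2 (hjump' P hPU) (fun hall => ⟨hunitx P hPU hall, hunitx P hPU hall⟩) _⟩, ?_⟩
        have h2 := hG (cc l) a'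
        rw [hprod l] at h2
        rw [hl, one_mul]
        apply mul_right_cancel₀ ha'0
        rw [h2]
        ring
      · have hx0' : ∀ q', Function.update x (finSumFinEquiv (Sum.inr q)) u' q' ≠ 0 := by
          intro q'
          by_cases hq' : q' = finSumFinEquiv (Sum.inr q)
          · rw [hq', Function.update_self]
            exact hSu _ hu'
          · rw [Function.update_of_ne hq']
            exact hx0 q'
        have hxi : x (finSumFinEquiv (Sum.inr q)) = u q := by
          simp only [x, Function.comp_apply, Equiv.symm_apply_apply, Sum.elim_inr]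
        have h1 := fun P => hP (Function.update x (finSumFinEquiv (Sum.inr q)) u') (b i) hx0'
          (lmat_update hx0 hx (finSumFinEquiv (Sum.inr q)) (b i) fun E hE' => by
            rw [hxi]
            refine hE E (fun l => ?_) fun q' hq' => ?_
            · have h2 := hE' (finSumFinEquiv (Sum.inl l))
                (fun h3 => Sum.inl_ne_inr (finSumFinEquiv.injective h3))
              simpa only [x, Function.comp_apply, Equiv.symm_apply_apply, Sum.elim_inl] using h2
            · have h2 := hE' (finSumFinEquiv (Sum.inr q')) (by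
                intro h3
                exact hq' (Sum.inr_injective (finSumFinEquiv.injective h3)))
              simpa only [x, Function.comp_apply, Equiv.symm_apply_apply, Sum.elim_inr] using h2) P
        refine ⟨b i * G a', ⟨form_pluri _ _ _, fun P _ => (h1 P).1 _, fun P _ hPU =>
          (h1 P).2 (hjump' P hPU) (fun hall => ⟨hunitx P hPU hall, fun q' => ?_⟩) _⟩, rfl⟩
        by_cases hq' : q' = finSumFinEquiv (Sum.inr q)
        · rw [hq', Function.update_self]
          exact hunit P hPU _ hu'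
        · rw [Function.update_of_ne hq']
          exact hunitx P hPU hall q'
    choose γ hγ hγ' using hsec
    have hsec0 : LogSec k K (h + p) (wt m + 1) Bd (form x (wt m + 1) (1 * G a')) := by
      have h1 := fun P => hP x 1 hx0 (fun D => by rw [one_mul]) P
      exact ⟨form_pluri _ _ _, fun P _ => (h1 P).1 _, fun P _ hPU =>
        (h1 P).2 (hjump' P hPU) (fun hall => ⟨hunitx P hPU hall, hunitx P hPU hall⟩) _⟩
    let Γ : Fin (h' + 1) → K := Fin.cases (1 * G a') γ
    refine ⟨wt m + 1, Nat.succ_pos _, fun j => form x (wt m + 1) (Γ j), fun j => ?_, D, ?_, ?_⟩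
    · refine Fin.cases ?_ (fun i => ?_) j
      · exact hsec0
      · exact hγ i
    · change form x (wt m + 1) (1 * G a') D ≠ 0
      rw [hf, one_mul]
      exact hG0 _
    · have h1 : ∀ i : Fin h', Γ i.succ / Γ 0 = b i := by
        intro i
        change γ i / (1 * G a') = b i
        rw [hγ', one_mul, mul_div_assoc, div_self (hG0 a'), mul_one]
      simp only [hf, h1]
      exact hb

end Pool.Agent.W603.GY
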