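import Pool.Agent.W603.GY.Classes

/-!
The logarithmic Kodaira dimension of quasi-projective varieties given by sums of few high powers of
linear forms, with any number of boundary forms.
-/

set_option autoImplicit false

open FF IntermediateField Pool.Agent.W603.LV Pool.Agent.W603.GR Pool.Agent.W603.GW
  Pool.Agent.W602.GT Pool.Agent.W603.GX

namespace Pool.Agent.W603.GY

variable {k : Type} [Field k] {n : ℕ} {ι κ : Type}

/-- **The main theorem.** -/
theorem main2 [IsAlgClosed k] [CharZero k] [Finite κ] {F : ι → MvPolynomial (Fin (n + 1)) k}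
    {Q : κ → MvPolynomial (Fin (n + 1)) k} {S N : ℕ}
    (hF : ∀ i, IsPowSum S N (F i)) (hQ : ∀ j, IsPowSum (S - 1) N (Q j)) (hN1 : 1 ≤ N)
    (hN : n * ((S + 1) * tn (S - 1)) ≤ N) {K : Type} [Field K] [Algebra k K] {w : ℕ}
    {y : Fin (n + 1) → K} (hy : SubVarQ F Q K w y) (hcomp : IsComponentQ F Q y) :
    (¬ Psef k K w (OffAny Q y) ∧ AffLine Q y) ∨
      ∃ h q : ℕ, h + q = w ∧ KodGe k K w (OffAny Q y) h ∧ ¬ KodGe k K w (OffAny Q y) (h + 1) ∧
        TorusSpan Q y q := by
  classical
  have hK : CharZero K := charZero_of_injective_algebraMap (algebraMap k K).injective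
  have hQh : ∀ j, IsForm (Q j) := fun j => powSum_form (hQ j)
  have hQne : ∀ j, Q j ≠ 0 := by
    intro j h0
    apply hy.off j
    rw [h0]
    unfold Pool.Agent.W602.GT.val
    rw [map_zero]
  have hhom : ∀ j, (Q j).IsHomogeneous (Q j).totalDegree := by
    intro j
    obtain ⟨d, hd⟩ := hQh j
    rw [hd.totalDegree (hQne j)]
    exact hd
  have hdpos : ∀ j, 0 < (Q j).totalDegree := by
    intro j
    obtain ⟨r, d, l, -, hd, h1⟩ := hQ j
    have h2 : (Q j).IsHomogeneous d := by
      rw [h1]
      exact hom_pow l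
    rw [h2.totalDegree (hQne j)]
    omega
  obtain ⟨J, hJ, g, hg, hcard, hjump, hgood⟩ := terms2 hF hQ hN1 hN hy
  let u : κ → κ → K := fun j1 j => val y (Q j) ^ (Q j1).totalDegree /
    val y (Q j1) ^ (Q j).totalDegree
  obtain ⟨i0, hi0'⟩ := Function.ne_iff.1 hy.ne
  have hi0 : y i0 ≠ 0 := hi0'
  -- a base index
  obtain ⟨B, hB1, hB2⟩ : ∃ B : Set κ, (∀ a ∈ B, ∀ b ∈ B, a = b) ∧ (∀ j : κ, B.Nonempty) := by
    by_cases hne : Nonempty κ
    · obtain ⟨j1⟩ := hne
      exact ⟨{j1}, fun a ha b hb => by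
        rw [Set.mem_singleton_iff] at ha hb
        rw [ha, hb], fun _ => ⟨j1, rfl⟩⟩
    · exact ⟨∅, fun a ha => absurd ha (Set.notMem_empty a), fun j => absurd ⟨j⟩ hne⟩
  let Su' : Set K := {x | ∃ j1 ∈ B, ∃ j, j ≠ j1 ∧ x = u j1 j}
  -- the linear form at infinity
  have hls : ∀ lq : κ → Fin (n + 1) → k, (∀ j, lin (lq j) y ≠ 0) →
      ∃ ls : Fin (n + 1) → k, lin ls y ≠ 0 ∧ ∀ j1 ∈ B, ls = lq j1 := by
    intro lq hlq
    by_cases hne : B.Nonempty
    · obtain ⟨j1, hj1⟩ := hne
      exact ⟨lq j1, hlq j1, fun b hb => by rw [hB1 j1 hj1 b hb]⟩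
    · refine ⟨Pi.single i0 1, by rw [lin_single]; exact hi0, fun j1 hj1 => absurd ⟨j1, hj1⟩ hne⟩
  by_cases hker : ∀ D : Derivation k K K, (∀ e (C : CD k (g e)) (a b : Fin (C.m + 1)),
      D (g e (C.e a) / g e (C.e b)) = 0) → (∀ x ∈ Su', D x = 0) → D = 0
  · right
    have hSu0 : ∀ x ∈ Su', x ≠ 0 := by
      rintro x ⟨j1, -, j, -, rfl⟩
      exact div_ne_zero (pow_ne_zero _ (hy.off j)) (pow_ne_zero _ (hy.off j1))
    have hunit : ∀ P : Place k K, ¬ OffAny Q y P → ∀ x ∈ Su', P.ord x = 0 := by
      rintro P hP x ⟨j1, -, j, -, rfl⟩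
      obtain ⟨μ, hμ⟩ := ord_off hhom hy.ne hy.off hP
      rw [P.ord_div (pow_ne_zero _ (hy.off j)) (pow_ne_zero _ (hy.off j1)), P.ord_pow, P.ord_pow,
        hμ, hμ]
      ring
    obtain ⟨h, p, t, uu, hhp, hbasis, huu, hkill, hkill', hkod, hmore⟩ := kod_units2 hy.dim g hg
      hcard (OffAny Q y) hjump Su' hSu0 hunit hker
    have hno : ¬ KodGe k K w (OffAny Q y) (w + 1) := by
      intro hk
      have h1 := kod_le2 (p := 0) hy.dim (fun l => l.elim0) (fun l => l.elim0)
        (fun l => l.elim0) (fun l => l.elim0) (fun l => l.elim0) hk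
      omega
    by_cases hp : p = 0
    · subst hp
      rw [add_zero] at hhp
      subst hhp
      exact ⟨h, 0, rfl, hkod, hno, torusSpan_zero hy.ne hhom⟩
    have hp0 : 0 < p := Nat.pos_of_ne_zero hp
    -- the base index
    obtain ⟨j1, hj1B⟩ : ∃ j1, j1 ∈ B := by
      obtain ⟨j1, hj1, -⟩ := huu ⟨0, hp0⟩
      exact ⟨j1, hj1⟩
    have huu' : ∀ l, ∃ j, j ≠ j1 ∧ uu l = u j1 j := by
      intro l
      obtain ⟨j1', hj1', j, hj, h1⟩ := huu l
      obtain rfl := hB1 j1 hj1B j1' hj1'
      exact ⟨j, hj, h1⟩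
    choose jj hjj huj using huu'
    -- the field of constants
    set W : IntermediateField k K := cst {D | ∀ i, D (t i) = 0} with hWdef
    have hW : ∀ {x : K}, x ∈ W ↔ ∀ D : Derivation k K K, (∀ i, D (t i) = 0) → D x = 0 :=
      mem_cst
    obtain ⟨lq, hG, hlq, hW1⟩ := hgood W (fun z d hd h => cst_root z d hd h)
      (fun e C a b => hW.2 fun D hD => hkill D hD e C a b)
    have hv : ∀ j, lin (lq j) y ≠ 0 := hG.lq_ne
    let ww : κ → K := fun j => lin (lq j) y / lin (lq j1) y
    have hww : ∀ j, ww j ≠ 0 := fun j => div_ne_zero (hv j) (hv j1)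
    -- logarithmic derivatives of the units
    have hldQ : ∀ D : Derivation k K K, (∀ i, D (t i) = 0) → ∀ j,
        D (val y (Q j)) / val y (Q j) =
          (Q j).totalDegree * (D (lin (lq j) y) / lin (lq j) y) := by
      intro D hD j
      have h1 := hW.1 (hlq j) D hD
      have h2 := ld_div D (pow_ne_zero (Q j).totalDegree (hv j)) (hy.off j)
      rw [h1, zero_div, ld_pow D (hv j)] at h2
      linear_combination h2
    have hldu : ∀ D : Derivation k K K, (∀ i, D (t i) = 0) → ∀ j, D (u j1 j) / u j1 j =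
        (((Q j1).totalDegree * (Q j).totalDegree : ℕ) : K) * (D (ww j) / ww j) := by
      intro D hD j
      simp only [u, ww]
      rw [ld_div D (pow_ne_zero _ (hy.off j)) (pow_ne_zero _ (hy.off j1)), ld_pow D (hy.off j),
        ld_pow D (hy.off j1), hldQ D hD, hldQ D hD, ld_div D (hv j) (hv j1)]
      push_cast
      ring
    have hcpos : ∀ j, (((Q j1).totalDegree * (Q j).totalDegree : ℕ) : K) ≠ 0 := by
      intro j
      have := Nat.mul_pos (hdpos j1) (hdpos j)
      exact_mod_cast this.ne'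
    have hu0 : ∀ l, uu l ≠ 0 := fun l => hSu0 _ (huu l)
    -- a derivation that kills `t` and the `ww (jj b)` vanishes
    have hzero : ∀ D : Derivation k K K, (∀ i, D (t i) = 0) → (∀ b, D (ww (jj b)) = 0) →
        D = 0 := by
      intro D hD hDw
      apply der_ext _ hbasis
      rintro (i | b)
      · exact hD i
      · change D (uu b) = 0
        have h1 := hldu D hD (jj b)
        rw [hDw b, zero_div, mul_zero, ← huj b] at h1
        exact (ld_zero D (hu0 b)).1 h1
    -- the coefficients
    have hspan : ∀ j, ∃ A : Option (Fin p) → W,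
        ∑ a, A a • ww (a.elim j1 jj) = ww j := by
      intro j
      have h1 := span_claim hQh hy hcomp hG (fun a : Option (Fin p) => a.elim j1 jj) j1 none rfl
        (fun δ hδ1 hδ2 hδ3 => by
          have hδt : ∀ i, δ (t i) = 0 := hkill' δ fun e C a b =>
            hW1 (consts δ) (fun p hp => hδ1 p hp) (fun j => hδ2 j) e _ _
              (hW.2 fun D hD => hkill D hD e C a b)
          exact hzero δ hδt fun b => hδ3 (some b)) j
      exact (Submodule.mem_span_range_iff_exists_fun W).1 h1
    choose A hA using hspan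
    obtain ⟨q, c, rep, Dc, hrep, hc1, hDct, hDcw, hcls⟩ := classes t uu hbasis hu0 ww hww j1
      (div_self (hv j1)) jj
      (fun b => (((Q j1).totalDegree * (Q (jj b)).totalDegree : ℕ) : K)) (fun b => hcpos _)
      (fun D hD b => by rw [huj b]; exact hldu D hD (jj b))
      (fun j a => (A j a : K)) (fun D hD j a => hW.1 (A j a).2 D hD) (fun j => by
        rw [← hA j]
        exact Finset.sum_congr rfl fun a _ => by rw [Algebra.smul_def]; rfl)
    obtain ⟨hupper, htorus⟩ := torus_part hQh hy hcomp hG c rep hrep hc1 Dc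
      (fun l x hx => hW.1 hx (Dc l) (hDct l)) hDcw
    -- the ratios of sections
    let ρ : Fin p → κ → K := fun b j => (((Q j).totalDegree : K) / (Q (jj b)).totalDegree) *
      ((A j (some b) : K) * ww (jj b) / ww j)
    have hdq0 : ∀ j, ((Q j).totalDegree : K) ≠ 0 := fun j => by exact_mod_cast (hdpos j).ne'
    have hρ : ∀ b j, j ≠ j1 → ∀ E : Derivation k K K, (∀ i, E (t i) = 0) →
        (∀ q', q' ≠ b → E (uu q') = 0) →
        E (u j1 j) / u j1 j = ρ b j * (E (uu b) / uu b) := by
      intro b j hj E hE hE'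
      have h0 : ∀ b', b' ≠ b → E (ww (jj b')) = 0 := by
        intro b' hb'
        have h1 := hldu E hE (jj b')
        rw [← huj b', hE' b' hb', zero_div, eq_comm] at h1
        exact (ld_zero E (hww _)).1 ((mul_eq_zero.1 h1).resolve_left (hcpos _))
      have h1 : E (ww j) = (A j (some b) : K) * E (ww (jj b)) := by
        conv_lhs => rw [← hA j]
        rw [map_sum, Fintype.sum_option]
        have h2 : ∀ a : Option (Fin p), E (A j a • ww (a.elim j1 jj)) =
            (A j a : K) * E (ww (a.elim j1 jj)) := by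
          intro a
          have h3 : A j a • ww (a.elim j1 jj) = (A j a : K) * ww (a.elim j1 jj) := by
            rw [Algebra.smul_def]; rfl
          rw [h3, E.leibniz, hW.1 (A j a).2 E hE, smul_zero, add_zero, smul_eq_mul]
        simp only [h2]
        rw [Finset.sum_eq_single b]
        · simp only [Option.elim_none, Option.elim_some]
          have h3 : ww j1 = 1 := div_self (hv j1)
          rw [h3, E.map_one_eq_zero, mul_zero, zero_add]
        · intro b' _ hb'
          simp only [Option.elim_some]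
          rw [h0 b' hb', mul_zero]
        · intro h
          exact absurd (Finset.mem_univ _) h
      rw [hldu E hE j, h1, huj b, hldu E hE (jj b)]
      simp only [ρ]
      have e1 := hww j
      have e2 := hww (jj b)
      have e3 := hdq0 (jj b)
      push_cast
      field_simp
    let S1 : Set K := {x | (∃ l, x = t l) ∨ ∃ b j, j ≠ j1 ∧ x = ρ b j}
    have hS1c : ∀ D : Derivation k K K, (∀ s ∈ S1, D s = 0) → (∀ i, D (t i) = 0) ∧
        ∀ b j, j ≠ j1 → D ((A j (some b) : K) * ww (jj b) / ww j) = 0 := by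
      intro D hD
      refine ⟨fun i => hD _ (Or.inl ⟨i, rfl⟩), fun b j hj => ?_⟩
      have h1 := hD (ρ b j) (Or.inr ⟨b, j, hj, rfl⟩)
      simp only [ρ] at h1
      have h2 : D (((Q j).totalDegree : K) / (Q (jj b)).totalDegree) = 0 := by
        have h3 : ((Q j).totalDegree : K) / (Q (jj b)).totalDegree ∈ consts D :=
          div_mem (_root_.natCast_mem _ _) (_root_.natCast_mem _ _)
        exact h3
      rw [D.leibniz, h2, smul_zero, add_zero, smul_eq_mul] at h1
      exact (mul_eq_zero.1 h1).resolve_left (div_ne_zero (hdq0 _) (hdq0 _))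
    let S2 : Set K := Set.range fun l : Fin q => ww (rep l.succ)
    have hgen : ∀ D : Derivation k K K, (∀ s ∈ S1 ∪ S2, D s = 0) → D = 0 := by
      intro D hD
      obtain ⟨h1, h2⟩ := hS1c D fun s hs => hD s (Or.inl hs)
      have h3 := hcls D h1 h2
      refine hzero D h1 fun b => ?_
      have h4 : ∀ j, D (ww j) = 0 := by
        intro j
        by_cases hc0 : c j = 0
        · have h5 := h3 j j1 (by rw [hc0, hc1])
          have h6 : ww j1 = 1 := div_self (hv j1)
          rwa [h6, div_one] at h5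
        · obtain ⟨l, hl⟩ := Fin.exists_succ_eq.2 hc0
          have h5 := h3 j (rep l.succ) (by rw [hrep, hl])
          have h6 := hD (ww (rep l.succ)) (Or.inr ⟨l, rfl⟩)
          have h7 : ww j = (ww j / ww (rep l.succ)) * ww (rep l.succ) := by
            have := hww (rep l.succ)
            field_simp
          rw [h7, D.leibniz, h5, h6, smul_zero, smul_zero, add_zero]
      exact h4 _
    obtain ⟨h', p', t', u', hhp', ht', hu', hbasis', hkill2⟩ := basis_pick hy.dim S1 (S1 ∪ S2)
      (alg_of_ker hy.dim _ hgen)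
    have hu'S : ∀ l, u' l ∈ S2 := by
      intro l
      rcases hu' l with h1 | h1
      · exfalso
        obtain ⟨D, hD⟩ := exists_der (Sum.elim t' u') hbasis'
          (Sum.elim (fun _ => 0) (fun _ => 1))
        have h2 := hkill2 D (fun i => hD (Sum.inl i)) _ h1
        have h3 := hD (Sum.inr l)
        simp only [Sum.elim_inr] at h3
        rw [h2] at h3
        exact zero_ne_one h3
      · exact h1
    have hkod' : KodGe k K w (OffAny Q y) h' := by
      refine hmore hp0 h' t' (hbasis'.1.comp Sum.inl Sum.inl_injective) fun i => ?_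
      rcases ht' i with h1 | ⟨b, j, hj, h1⟩
      · exact Or.inl h1
      · refine Or.inr ⟨b, u j1 j, ⟨j1, hj1B, j, hj, rfl⟩, fun E hE hE' => ?_⟩
        rw [h1]
        exact hρ b j hj E hE hE'
    have hpq : p' ≤ q := by
      choose l hl using hu'S
      have hinj : Function.Injective l := by
        intro a b hab
        have h1 : u' a = u' b := by
          rw [← hl a, ← hl b, hab]
        have h2 : Function.Injective u' :=
          (hbasis'.1.comp Sum.inr Sum.inr_injective).injective
        exact h2 h1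
      have h1 := Fintype.card_le_of_injective l hinj
      simpa using h1
    have h1 := hupper h' hkod'
    have hq : p' = q := by omega
    subst hq
    refine ⟨h', p', hhp', hkod', fun hk => ?_, htorus⟩
    have h2 := hupper _ hk
    omega
  · left
    push Not at hker
    obtain ⟨D, hD1, hD2, hD0⟩ := hker
    obtain ⟨lq, hG, hlq, -⟩ := hgood (consts D) (fun z d hd h => consts_root D z d hd h)
      (fun e C a b => hD1 e C a b)
    have hG' : Good F Q y (PrD D y) lq := hG
    obtain ⟨ls, hls1, hls2⟩ := hls lq hG.lq_ne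
    obtain ⟨C, c, τ, z, e, hfd, h1, h2, h3, h4⟩ := flow_of_der hQh hy hcomp hD0 hG' hls1
    have he : ∀ j, lin (lq j) e = 0 := by
      intro j
      apply h1
      obtain ⟨j1, hj1⟩ := hB2 j
      rw [hls2 j1 hj1]
      by_cases hj : j = j1
      · rw [hj]
        exact der_div_self D (hG.lq_ne j1)
      · exact ratio_const D (hG.lq_ne j) (hG.lq_ne j1) (hy.off j) (hy.off j1) (hdpos j)
          (hdpos j1) (hlq j) (hlq j1) (hD2 _ ⟨j1, hj1, j, hj, rfl⟩)
    refine ⟨hfd.not_psef hy.dim he, e, h2, h3, fun t j => ?_⟩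
    rw [h4, he, zero_div, zero_mul, add_zero, one_pow, mul_one]

/-- **The logarithmic Kodaira dimension.** -/
theorem kodaira [IsAlgClosed k] [CharZero k] [Finite κ] {F : ι → MvPolynomial (Fin (n + 1)) k}
    {Q : κ → MvPolynomial (Fin (n + 1)) k} {S N : ℕ}
    (hF : ∀ i, IsPowSum S N (F i)) (hQ : ∀ j, IsPowSum (S - 1) N (Q j)) (hN1 : 1 ≤ N)
    (hN : n * ((S + 1) * ((S - 1) * (S - 2) / 2)) ≤ N) {K : Type} [Field K] [Algebra k K] {w : ℕ}
    {y : Fin (n + 1) → K} (hy : SubVarQ F Q K w y) (hcomp : IsComponentQ F Q y) :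
    (¬ Psef k K w (OffAny Q y) ∧ AffLine Q y) ∨
      ∃ h q : ℕ, h + q = w ∧ KodGe k K w (OffAny Q y) h ∧ ¬ KodGe k K w (OffAny Q y) (h + 1) ∧
        TorusSpan Q y q :=
  main2 hF hQ hN1 (by rw [tn_eq]; exact hN) hy hcomp

end Pool.Agent.W603.GY
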