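import Pool.Agent.W603.GY.Terms2
import Pool.Agent.W603.GY.Kod2

/-!
The span of the linear forms of the boundary on the linear spaces in the variety.
-/

set_option autoImplicit false

open FF IntermediateField Pool.Agent.W603.LV Pool.Agent.W603.GR Pool.Agent.W603.GW
  Pool.Agent.W602.GT Pool.Agent.W603.GX

namespace Pool.Agent.W603.GY

variable {k : Type} [Field k] {n : ℕ} {ι κ : Type}

section der

variable {K : Type} [Field K] [Algebra k K]

/-- the field of common constants -/
noncomputable def cst (T : Set (Derivation k K K)) : IntermediateField k K :=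
  sInf (Set.image consts T)

theorem mem_cst {T : Set (Derivation k K K)} {x : K} : x ∈ cst T ↔ ∀ D ∈ T, D x = 0 := by
  unfold cst
  rw [IntermediateField.mem_sInf]
  constructor
  · intro h D hD
    exact h _ ⟨D, hD, rfl⟩
  · rintro h _ ⟨D, hD, rfl⟩
    exact h D hD

theorem consts_root [CharZero k] (D : Derivation k K K) (z : K) (d : ℕ) (hd : 0 < d)
    (h : D (z ^ d) = 0) : D z = 0 := by
  have hK : CharZero K := charZero_of_injective_algebraMap (algebraMap k K).injective
  by_cases hz : z = 0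
  · rw [hz, map_zero]
  · exact der_pow_zero D hz hd h

theorem cst_root [CharZero k] {T : Set (Derivation k K K)} (z : K) (d : ℕ) (hd : 0 < d)
    (h : z ^ d ∈ cst T) : z ∈ cst T := by
  rw [mem_cst] at h ⊢
  exact fun D hD => consts_root D z d hd (h D hD)

theorem ld_mul (D : Derivation k K K) {a b : K} (ha : a ≠ 0) (hb : b ≠ 0) :
    D (a * b) / (a * b) = D a / a + D b / b := by
  rw [D.leibniz, smul_eq_mul, smul_eq_mul]
  field_simp
  ring

theorem ld_inv (D : Derivation k K K) {a : K} (ha : a ≠ 0) : D a⁻¹ / a⁻¹ = -(D a / a) := by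
  have h1 := ld_mul D ha (inv_ne_zero ha)
  rw [mul_inv_cancel₀ ha, D.map_one_eq_zero, zero_div] at h1
  linear_combination -h1

theorem ld_div (D : Derivation k K K) {a b : K} (ha : a ≠ 0) (hb : b ≠ 0) :
    D (a / b) / (a / b) = D a / a - D b / b := by
  rw [div_eq_mul_inv a b, ld_mul D ha (inv_ne_zero hb), ld_inv D hb]
  ring

theorem ld_pow (D : Derivation k K K) {a : K} (ha : a ≠ 0) (d : ℕ) :
    D (a ^ d) / a ^ d = d * (D a / a) := by
  rw [D.leibniz_pow]
  simp only [nsmul_eq_mul, smul_eq_mul]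
  cases d with
  | zero => simp
  | succ d =>
    rw [Nat.add_sub_cancel, pow_succ]
    field_simp

theorem ld_zero (D : Derivation k K K) {a : K} (ha : a ≠ 0) : D a / a = 0 ↔ D a = 0 := by
  rw [div_eq_zero_iff]
  exact or_iff_left ha

end der

/-- Points of the linear spaces through the generic point lie in the variety. -/
theorem in_var [IsAlgClosed k] [Finite κ] {F : ι → MvPolynomial (Fin (n + 1)) k}
    {Q : κ → MvPolynomial (Fin (n + 1)) k} (hQh : ∀ j, IsForm (Q j))
    {K : Type} [Field K] [Algebra k K] {w : ℕ} {y : Fin (n + 1) → K} (hy : SubVarQ F Q K w y)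
    (hcomp : IsComponentQ F Q y) {Pr : Set ((Fin (n + 1) → k) × (Fin (n + 1) → k))}
    {lq : κ → Fin (n + 1) → k} (hG : Good F Q y Pr lq) {x : Fin (n + 1) → K} (hx : InV Pr y x)
    {G : MvPolynomial (Fin (n + 1)) k} (hGf : IsForm G) (hG0 : val y G = 0) : val x G = 0 := by
  classical
  have hinj : Function.Injective (algebraMap (Polynomial K) (RatFunc K)) :=
    RatFunc.algebraMap_injective K
  let P : Fin (n + 1) → Polynomial K := fun l =>
    Polynomial.C (y l) + Polynomial.C (x l - y l) * Polynomial.X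
  let y' : Fin (n + 1) → RatFunc K := fun l => algebraMap (Polynomial K) (RatFunc K) (P l)
  have hC : ∀ c : K, algebraMap (Polynomial K) (RatFunc K) (Polynomial.C c) =
      algebraMap K (RatFunc K) c := fun c => by
    rw [IsScalarTower.algebraMap_apply K (Polynomial K) (RatFunc K)]
    rfl
  have hlinmap : ∀ (l : Fin (n + 1) → k) (x : Fin (n + 1) → K),
      algebraMap K (RatFunc K) (lin l x) =
      lin l (fun i => algebraMap K (RatFunc K) (x i)) := fun l x =>
    lin_map (IsScalarTower.toAlgHom k K (RatFunc K)) l x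
  have hliny' : ∀ l : Fin (n + 1) → k, lin l y' =
      (1 - RatFunc.X) * algebraMap K (RatFunc K) (lin l y) +
      RatFunc.X * algebraMap K (RatFunc K) (lin l x) := by
    intro l
    have h1 : y' = fun i => (1 - RatFunc.X) * algebraMap K (RatFunc K) (y i) +
        RatFunc.X * algebraMap K (RatFunc K) (x i) := by
      funext i
      simp only [y', P]
      rw [map_add, map_mul, hC, hC, RatFunc.algebraMap_X, map_sub]
      ring
    rw [h1, lin_add_smul, ← hlinmap l y, ← hlinmap l x]
  have hInV : InV Pr y y' := by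
    refine ⟨fun l hl => ?_, fun p hp => ?_⟩
    · rw [hliny', hl, hx.1 l hl, map_zero, mul_zero, mul_zero, add_zero]
    · have h1 := hx.2 p hp
      have h2 := (hG.ne p hp).2
      have h3 : algebraMap K (RatFunc K) (lin p.2 y) ≠ 0 := by rw [Ne, map_eq_zero]; exact h2
      change lin p.1 x = lin p.1 y / lin p.2 y * lin p.2 x at h1
      rw [hliny', hliny', h1, map_mul, map_div₀]
      field_simp
  have hyF : ∀ a, val y' (F a) = 0 := hG.van (RatFunc K) y' hInV
  have hspec : ∀ G : MvPolynomial (Fin (n + 1)) k, IsForm G → val y' G = 0 → val y G = 0 := by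
    intro G _ h1
    obtain ⟨R, hR1, hR2⟩ := val_polyK P G
    have h2 : R = 0 := hinj (by rw [hR2, map_zero]; exact h1)
    have h3 := hR1 0
    rw [h2, Polynomial.eval_zero] at h3
    have h4 : (fun l => (P l).eval 0) = y := by
      funext l
      simp [P]
    rw [h4] at h3
    exact h3.symm
  have hy'ne : y' ≠ 0 := by
    intro h1
    obtain ⟨i0, hi0⟩ := Function.ne_iff.1 hy.ne
    have hi0' : y i0 ≠ 0 := hi0
    apply hi0'
    have h2 := hspec (MvPolynomial.X i0) ⟨1, MvPolynomial.isHomogeneous_X k i0⟩ (by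
      unfold Pool.Agent.W602.GT.val
      rw [MvPolynomial.aeval_X, h1]
      rfl)
    unfold Pool.Agent.W602.GT.val at h2
    rwa [MvPolynomial.aeval_X] at h2
  have hrel := same_relQ hcomp hy'ne hyF hy.off hQh hspec
  have h1 := (hrel G hGf).1 hG0
  obtain ⟨R, hR1, hR2⟩ := val_polyK P G
  have h2 : R = 0 := hinj (by rw [hR2, map_zero]; exact h1)
  have h3 := hR1 1
  rw [h2, Polynomial.eval_zero] at h3
  have h4 : (fun l => (P l).eval 1) = x := by
    funext l
    simp [P]
  rw [h4] at h3
  exact h3.symm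

/-- The linear forms of the boundary are combinations of those in a transcendence basis. -/
theorem span_claim [IsAlgClosed k] [CharZero k] [Finite κ]
    {F : ι → MvPolynomial (Fin (n + 1)) k}
    {Q : κ → MvPolynomial (Fin (n + 1)) k} (hQh : ∀ j, IsForm (Q j))
    {K : Type} [Field K] [Algebra k K] {w : ℕ} {y : Fin (n + 1) → K} (hy : SubVarQ F Q K w y)
    (hcomp : IsComponentQ F Q y) {W : IntermediateField k K} {lq : κ → Fin (n + 1) → k}
    (hG : Good F Q y (PrC W y) lq) {α : Type} (jx : α → κ) (j1 : κ) (a1 : α) (hj1 : jx a1 = j1)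
    (hker : ∀ δ : Derivation k K K, (∀ p ∈ PrC W y, δ (lin p.1 y / lin p.2 y) = 0) →
      (∀ j, δ (val y (Q j) / lin (lq j) y ^ (Q j).totalDegree) = 0) →
      (∀ a, δ (lin (lq (jx a)) y / lin (lq j1) y) = 0) → δ = 0) (j : κ) :
    lin (lq j) y / lin (lq j1) y ∈
      Submodule.span W (Set.range fun a => lin (lq (jx a)) y / lin (lq j1) y) := by
  classical
  by_contra hcon
  obtain ⟨ℓ, hℓ, hℓ0⟩ := Submodule.exists_dual_map_eq_bot_of_notMem hcon inferInstance
  have hℓ1 : ∀ a, ℓ (lin (lq (jx a)) y / lin (lq j1) y) = 0 := by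
    intro a
    have h1 : ℓ (lin (lq (jx a)) y / lin (lq j1) y) ∈ Submodule.map ℓ
        (Submodule.span W (Set.range fun a => lin (lq (jx a)) y / lin (lq j1) y)) :=
      Submodule.mem_map_of_mem (Submodule.subset_span ⟨a, rfl⟩)
    rw [hℓ0] at h1
    exact (Submodule.mem_bot _).1 h1
  have hls := hG.lq_ne j1
  let v : Fin (n + 1) → K := fun i => ((ℓ (y i / lin (lq j1) y) : W) : K)
  have hv : ∀ l : Fin (n + 1) → k, lin l v = ((ℓ (lin l y / lin (lq j1) y) : W) : K) := by
    intro l
    have h0 : lin l y / lin (lq j1) y = ∑ i, algebraMap k W (l i) • (y i / lin (lq j1) y) := by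
      have h1 : ∀ c : K, lin l y / c = ∑ i, algebraMap k W (l i) • (y i / c) := by
        intro c
        unfold lin
        rw [Finset.sum_div]
        refine Finset.sum_congr rfl fun i _ => ?_
        rw [Algebra.smul_def, mul_div_assoc]
        rfl
      exact h1 _
    rw [h0, map_sum]
    have h1 : ∀ i, ℓ (algebraMap k W (l i) • (y i / lin (lq j1) y)) =
        algebraMap k W (l i) * ℓ (y i / lin (lq j1) y) := fun i => by
      rw [map_smul, smul_eq_mul]
    simp only [h1]
    push_cast
    rfl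
  have hvZ : ∀ l : Fin (n + 1) → k, lin l y = 0 → lin l v = 0 := by
    intro l hl
    rw [hv, hl, zero_div, map_zero]
    rfl
  have hvQ : ∀ p ∈ PrC W y, lin p.1 v = lin p.1 y / lin p.2 y * lin p.2 v := by
    rintro p ⟨h1, h2, h3⟩
    rw [hv, hv]
    have h4 : lin p.1 y / lin (lq j1) y = (⟨lin p.1 y / lin p.2 y, h3⟩ : W) •
        (lin p.2 y / lin (lq j1) y) := by
      rw [Algebra.smul_def]
      change _ = lin p.1 y / lin p.2 y * (lin p.2 y / lin (lq j1) y)
      field_simp
    rw [h4, map_smul, smul_eq_mul]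
    rfl
  have hvs : lin (lq j1) v = 0 := by
    have h1 := hℓ1 a1
    rw [hj1] at h1
    rw [hv, h1]
    rfl
  have hl0 : lin (lq j) v ≠ 0 := by
    rw [hv]
    intro h0
    exact hℓ (by exact_mod_cast h0)
  obtain ⟨C, z, e, h1, h2, h3, h4, h5, h6, h7, h8, h9, h10, h11⟩ := flow2 hQh hy hcomp hG v hvZ
    hvQ hls hvs hl0
  obtain ⟨δ, hδ, hδC, hδtop⟩ := delta_of C h1 h2
  have hQne : ∀ j, Q j ≠ 0 := by
    intro j h0
    apply hy.off j
    rw [h0]
    unfold Pool.Agent.W602.GT.val
    rw [map_zero]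
  have hfd : FlowData Q y lq C (lin (lq j1) y) (lin (lq j) y / lin (lq j1) y) z e :=
    ⟨fun j => by
      obtain ⟨d, hd⟩ := hQh j
      rw [hd.totalDegree (hQne j)]
      exact hd, hy.off, hls, h1, h2, h3, h4, h5, hG.lq_ne, h7⟩
  have hδ0 := hker δ (fun p hp => hδC _ (h9 p hp)) (fun j => hδC _ (h7 j)) (fun a => by
    apply hδC
    rw [hfd.lin_u, h6 _ (by rw [hv, hℓ1 a]; rfl), zero_mul, add_zero]
    exact lin_mem C _ h3)
  rw [hδ0] at hδ
  exact div_ne_zero (hG.lq_ne j) hls hδ.symm

end Pool.Agent.W603.GY
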