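import Pool.Agent.W603.GY.Span

/-!
Tori in components of quasi-projective varieties given by sums of few high powers of linear forms.
-/

set_option autoImplicit false

open FF IntermediateField Pool.Agent.W603.LV Pool.Agent.W603.GR Pool.Agent.W603.GW
  Pool.Agent.W602.GT Pool.Agent.W603.GX

namespace Pool.Agent.W603.GY

variable {k : Type} [Field k] {n : ℕ} {ι κ : Type}

/-- Through the generic point `y` of the variety `V` there is a linear space of dimension `q`, with
homogeneous coordinates `μ_0, …, μ_q`, contained in the closure of `V`, on which each of the forms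
`Q_j` is a multiple of a power of a coordinate: `V` is covered by tori of dimension `q`. -/
def TorusSpan {K : Type} [Field K] [Algebra k K] (Q : κ → MvPolynomial (Fin (n + 1)) k)
    (y : Fin (n + 1) → K) (q : ℕ) : Prop :=
  ∃ (e : Fin (q + 1) → Fin (n + 1) → K) (c : κ → Fin (q + 1)), LinearIndependent K e ∧
    (∀ i, y i = ∑ a, e a i) ∧ ∀ μ : Fin (q + 1) → K,
      (∀ G : MvPolynomial (Fin (n + 1)) k, IsForm G → val y G = 0 →
        val (fun i => ∑ a, μ a * e a i) G = 0) ∧
      ∀ j, val (fun i => ∑ a, μ a * e a i) (Q j) =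
        μ (c j) ^ (Q j).totalDegree * val y (Q j)

theorem torusSpan_zero {K : Type} [Field K] [Algebra k K] {Q : κ → MvPolynomial (Fin (n + 1)) k}
    {y : Fin (n + 1) → K} (hy : y ≠ 0) (hQ : ∀ j, (Q j).IsHomogeneous (Q j).totalDegree) :
    TorusSpan Q y 0 := by
  refine ⟨fun _ => y, fun _ => 0, ?_, fun i => by simp, fun μ => ⟨?_, fun j => ?_⟩⟩
  · rw [Fintype.linearIndependent_iff]
    intro g hg a
    have h1 : g 0 • y = 0 := by simpa using hg
    have ha : a = 0 := Fin.fin_one_eq_zero a
    rw [ha]
    exact (smul_eq_zero.1 h1).resolve_right hy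
  · rintro G ⟨d, hd⟩ hG0
    have h1 : (fun i => ∑ a : Fin (0 + 1), μ a * y i) = fun i => μ 0 * y i := by
      funext i
      simp
    rw [h1, val_smul hd, hG0, mul_zero]
  · have h1 : (fun i => ∑ a : Fin (0 + 1), μ a * y i) = fun i => μ 0 * y i := by
      funext i
      simp
    rw [h1, val_smul (hQ j)]

theorem Good.mono {K : Type} [Field K] [Algebra k K] {F : ι → MvPolynomial (Fin (n + 1)) k}
    {Q : κ → MvPolynomial (Fin (n + 1)) k} {y : Fin (n + 1) → K}
    {Pr Pr' : Set ((Fin (n + 1) → k) × (Fin (n + 1) → k))} {lq : κ → Fin (n + 1) → k}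
    (hG : Good F Q y Pr lq) (hle : Pr ⊆ Pr') (hne : ∀ p ∈ Pr', lin p.1 y ≠ 0 ∧ lin p.2 y ≠ 0) :
    Good F Q y Pr' lq :=
  ⟨hne, fun M _ _ _ _ x hx => hG.van M x ⟨hx.1, fun p hp => hx.2 p (hle hp)⟩, hG.lq_ne,
    fun M _ _ _ _ x hx => hG.lq_val M x ⟨hx.1, fun p hp => hx.2 p (hle hp)⟩⟩

/-- **Tori.** -/
theorem torus_part [IsAlgClosed k] [CharZero k] [Finite κ]
    {F : ι → MvPolynomial (Fin (n + 1)) k}
    {Q : κ → MvPolynomial (Fin (n + 1)) k} (hQh : ∀ j, IsForm (Q j))
    {K : Type} [Field K] [Algebra k K] {w : ℕ} {y : Fin (n + 1) → K} (hy : SubVarQ F Q K w y)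
    (hcomp : IsComponentQ F Q y) {W : IntermediateField k K} {lq : κ → Fin (n + 1) → k}
    (hG : Good F Q y (PrC W y) lq) {q : ℕ} (c : κ → Fin (q + 1)) (rep : Fin (q + 1) → κ)
    (hrep : ∀ a, c (rep a) = a) {j1 : κ} (hj1 : c j1 = 0) (Dc : Fin q → Derivation k K K)
    (hDW : ∀ l, ∀ x ∈ W, Dc l x = 0)
    (hDw : ∀ l j, Dc l (lin (lq j) y / lin (lq j1) y) =
      if c j = l.succ then lin (lq j) y / lin (lq j1) y else 0) :
    (∀ h, KodGe k K w (OffAny Q y) h → h + q ≤ w) ∧ TorusSpan Q y q := by
  classical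
  have hv1 := hG.lq_ne j1
  set v1 := lin (lq j1) y with hv1def
  let ev : Fin q → Fin (n + 1) → K := fun l i => v1 * Dc l (y i / v1)
  have hev : ∀ l (L : Fin (n + 1) → k), lin L (ev l) = v1 * Dc l (lin L y / v1) := by
    intro l L
    rw [← lin_div, ← lin_der, ← lin_smul]
  have hevq : ∀ l j, lin (lq j) (ev l) = if c j = l.succ then lin (lq j) y else 0 := by
    intro l j
    rw [hev, hDw]
    split_ifs
    · field_simp
    · rw [mul_zero]
  have hrat : ∀ l (p : (Fin (n + 1) → k) × (Fin (n + 1) → k)), lin p.2 y ≠ 0 →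
      Dc l (lin p.1 y / lin p.2 y) = 0 →
      lin p.1 (ev l) = lin p.1 y / lin p.2 y * lin p.2 (ev l) := by
    intro l p h2 h3
    rw [hev, hev]
    have h4 : lin p.1 y / v1 = (lin p.1 y / lin p.2 y) * (lin p.2 y / v1) := by field_simp
    rw [h4, (Dc l).leibniz, h3, smul_zero, add_zero, smul_eq_mul]
    ring
  have hZ : ∀ l (L : Fin (n + 1) → k), lin L y = 0 → lin L (ev l) = 0 := by
    intro l L hL
    rw [hev, hL, zero_div, map_zero, mul_zero]
  refine ⟨fun h hk => ?_, ?_⟩
  · have hdel : ∀ l : Fin q, ∃ δ : Derivation k K K,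
        (∀ N (ω ω' : (Fin w → Derivation k K K) → K), LogSec k K w N (OffAny Q y) ω →
          LogSec k K w N (OffAny Q y) ω' → ∀ D', ω' D' ≠ 0 → δ (ω D' / ω' D') = 0) ∧
        δ (lin (lq (rep l.succ)) y / v1) ≠ 0 ∧
        ∀ m : Fin q, m ≠ l → δ (lin (lq (rep m.succ)) y / v1) = 0 := by
      intro l
      have hGl : Good F Q y (PrD (Dc l) y) lq := Good.mono hG
        (fun p hp => ⟨hp.1, hp.2.1, hDW l _ hp.2.2⟩) fun p hp => ⟨hp.1, hp.2.1⟩
      obtain ⟨δ, hτ0, hδ, htop, hoff, hδl, -⟩ := dir (ls := lq j1) (l0 := lq (rep l.succ)) hQh hy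
        hcomp hGl (ev l) (hZ l)
        (fun p hp => hrat l p hp.2.1 hp.2.2) hv1 (by
          rw [hevq, hj1, if_neg (Fin.succ_ne_zero l).symm]) (by
          rw [hevq, hrep, if_pos rfl]
          exact hG.lq_ne _) (fun j => by
          by_cases hj : c j = l.succ
          · right
            refine ⟨hG.lq_ne j, hG.lq_ne _, ?_⟩
            have h1 : lin (lq j) y / lin (lq (rep l.succ)) y =
                (lin (lq j) y / v1) / (lin (lq (rep l.succ)) y / v1) := by
              field_simp
            have h2 : lin (lq j) y / v1 ≠ 0 := div_ne_zero (hG.lq_ne j) hv1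
            have h3 : lin (lq (rep l.succ)) y / v1 ≠ 0 := div_ne_zero (hG.lq_ne _) hv1
            have h4 := ld_div (Dc l) h2 h3
            rw [hDw, hDw, if_pos hj, hrep, if_pos rfl, div_self h2, div_self h3, sub_self,
              ← h1] at h4
            exact (ld_zero (Dc l) (div_ne_zero (hG.lq_ne j) (hG.lq_ne _))).1 h4
          · left
            rw [hevq, if_neg hj])
      refine ⟨δ, fun N ω ω' hω hω' D' hne => ratio_sec hy.dim δ hτ0 hδ htop hoff N ω ω' hω hω' D'
        hne, by rw [hδ]; exact hτ0, fun m hm => hδl _ ?_⟩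
      rw [hevq, hrep, if_neg fun h => hm (Fin.succ_injective _ h)]
    choose δ hδ1 hδ2 hδ3 using hdel
    exact kod_le2 hy.dim δ (fun l => lin (lq (rep l.succ)) y / v1) hδ1 hδ2 hδ3 hk
  · let e : Fin (q + 1) → Fin (n + 1) → K := Fin.cases (fun i => y i - ∑ l, ev l i) ev
    have he0 : ∀ i, e 0 i = y i - ∑ l, ev l i := fun i => rfl
    have hes : ∀ l : Fin q, e l.succ = ev l := fun l => rfl
    have hlsum : ∀ {α : Type} [Fintype α] (L : Fin (n + 1) → k) (m : α → K)
        (f : α → Fin (n + 1) → K), lin L (fun i => ∑ a, m a * f a i) = ∑ a, m a * lin L (f a) := by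
      intro α _ L m f
      unfold lin
      simp only [Finset.mul_sum]
      rw [Finset.sum_comm]
      refine Finset.sum_congr rfl fun a _ => Finset.sum_congr rfl fun i _ => by ring
    have hle0 : ∀ L : Fin (n + 1) → k, lin L (e 0) = lin L y - ∑ l, lin L (ev l) := by
      intro L
      have h1 : e 0 = fun i => 1 * y i + (-1) * ∑ l, 1 * ev l i := by
        funext i
        rw [he0]
        simp only [one_mul]
        ring
      rw [h1, lin_add_smul, hlsum]
      simp only [one_mul]
      ring
    have hlq : ∀ a j, lin (lq j) (e a) = if c j = a then lin (lq j) y else 0 := by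
      intro a j
      refine Fin.cases ?_ (fun l => ?_) a
      · rw [hle0]
        simp only [hevq]
        by_cases hj : c j = 0
        · rw [if_pos hj, Finset.sum_eq_zero, sub_zero]
          intro l _
          rw [hj, if_neg (Fin.succ_ne_zero l).symm]
        · obtain ⟨l, hl⟩ := Fin.exists_succ_eq.2 hj
          rw [if_neg hj, Finset.sum_eq_single l, if_pos hl.symm, sub_self]
          · intro m _ hm
            rw [← hl, if_neg fun h => hm (Fin.succ_injective _ h).symm]
          · intro h
            exact absurd (Finset.mem_univ _) h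
      · rw [hes, hevq]
    have hInV : ∀ μ : Fin (q + 1) → K, InV (PrC W y) y (fun i => ∑ a, μ a * e a i) := by
      intro μ
      refine ⟨fun L hL => ?_, fun p hp => ?_⟩
      · rw [hlsum]
        refine Finset.sum_eq_zero fun a _ => ?_
        have h1 : lin L (e a) = 0 := by
          refine Fin.cases ?_ (fun l => ?_) a
          · rw [hle0, hL, Finset.sum_eq_zero fun l _ => hZ l L hL, sub_zero]
          · rw [hes]
            exact hZ l L hL
        rw [h1, mul_zero]
      · change lin p.1 _ = lin p.1 y / lin p.2 y * lin p.2 _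
        obtain ⟨h1, h2, h3⟩ := hp
        rw [hlsum, hlsum, Finset.mul_sum]
        refine Finset.sum_congr rfl fun a _ => ?_
        have h4 : lin p.1 (e a) = lin p.1 y / lin p.2 y * lin p.2 (e a) := by
          have h5 : ∀ l, lin p.1 (ev l) = lin p.1 y / lin p.2 y * lin p.2 (ev l) := fun l =>
            hrat l p h2 (hDW l _ h3)
          refine Fin.cases ?_ (fun l => ?_) a
          · rw [hle0, hle0, mul_sub, Finset.mul_sum, Finset.sum_congr rfl fun l _ => h5 l]
            congr 1
            field_simp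
          · rw [hes]
            exact h5 l
        rw [h4]
        ring
    refine ⟨e, c, ?_, fun i => ?_, fun μ => ⟨fun G hGf hG0 =>
      in_var hQh hy hcomp hG (hInV μ) hGf hG0, fun j => ?_⟩⟩
    · rw [Fintype.linearIndependent_iff]
      intro g hg a
      have h1 : lin (lq (rep a)) (fun i => ∑ b, g b * e b i) = 0 := by
        have h2 : (fun i => ∑ b, g b * e b i) = fun _ => (0 : K) := by
          funext i
          have h3 := congrFun hg i
          simpa [Finset.sum_apply] using h3
        rw [h2]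
        unfold lin
        simp
      rw [hlsum] at h1
      simp only [hlq, hrep] at h1
      rw [Finset.sum_eq_single a] at h1
      · rw [if_pos rfl] at h1
        exact (mul_eq_zero.1 h1).resolve_right (hG.lq_ne _)
      · intro b _ hb
        rw [if_neg (Ne.symm hb), mul_zero]
      · intro h
        exact absurd (Finset.mem_univ _) h
    · rw [Fin.sum_univ_succ, he0]
      simp only [hes]
      ring
    · have h1 := hG.lq_val K _ (hInV μ) j
      change _ = val y (Q j) / lin (lq j) y ^ (Q j).totalDegree * _ at h1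
      rw [h1, hlsum]
      simp only [hlq]
      rw [Finset.sum_eq_single (c j)]
      · rw [if_pos rfl, mul_pow]
        have := hG.lq_ne j
        field_simp
      · intro b _ hb
        rw [if_neg (Ne.symm hb), mul_zero]
      · intro h
        exact absurd (Finset.mem_univ _) h

end Pool.Agent.W603.GY
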